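import Pool.Agent.Y463.SK.TLSpan

/-!
# Pure braid words modulo `(A - 1)²`
-/

set_option autoImplicit false

namespace Pool.Agent.H970.TF

open Pool.Agent.Y463.SK

/-- the exponent of a letter -/
def sgL (x : Bool × ℕ) : ℤ := if x.1 then 1 else -1

/-- the exponent sum -/
def ex (w : List (Bool × ℕ)) : ℤ := (w.map sgL).sum

/-- the words obtained by deleting one letter, with the exponent of the deleted letter -/
def dels : List (Bool × ℕ) → List (ℤ × List (Bool × ℕ))
  | [] => []
  | x :: w => (sgL x, w) :: (dels w).map (fun p => (p.1, x :: p.2))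

section
variable {R B : Type*} [CommRing R] [Ring B] [Algebra R B]

/-- the value of a word at `A = 1` up to sign -/
def SW (e : ℕ → B) (w : List (Bool × ℕ)) : B := (w.map (fun x => -(1 + e x.2))).prod

/-- the sum over the deletions -/
def D1 (e : ℕ → B) (w : List (Bool × ℕ)) : B := ((dels w).map (fun p => p.1 • SW e p.2)).sum

theorem SW_cons (e : ℕ → B) (x : Bool × ℕ) (w : List (Bool × ℕ)) :
    SW e (x :: w) = -(1 + e x.2) * SW e w := by simp [SW]

theorem SW_append (e : ℕ → B) (w w' : List (Bool × ℕ)) :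
    SW e (w ++ w') = SW e w * SW e w' := by simp [SW]

theorem D1_cons (e : ℕ → B) (x : Bool × ℕ) (w : List (Bool × ℕ)) :
    D1 e (x :: w) = sgL x • SW e w + -(1 + e x.2) * D1 e w := by
  unfold D1
  rw [dels, List.map_cons, List.sum_cons, List.map_map]
  congr 1
  rw [← List.sum_map_mul_left]
  congr 1
  apply List.map_congr_left
  intro p _
  rw [Function.comp_apply, SW_cons, mul_smul_comm]

variable {m : ℕ} {A A' d : R} {e : ℕ → B}

theorem A'_smul (hA : A * A' = 1) (hr : ∀ x : B, ((A - 1) * (A - 1)) • x = 0) (x : B) :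
    A' • x = x - (A - 1) • x := by
  have h1 : A' = 1 - (A - 1) + A' * ((A - 1) * (A - 1)) := by
    linear_combination (2 - A) * hA
  rw [h1, add_smul, mul_smul, hr, smul_zero, add_zero, sub_smul, one_smul]

theorem d_smul (hA : A * A' = 1) (hd : d = - A ^ 2 - A' ^ 2)
    (hr : ∀ x : B, ((A - 1) * (A - 1)) • x = 0) (x : B) : d • x = -2 * x := by
  have h1 : d • x = -(A • (A • x)) - A' • (A' • x) := by
    rw [hd, sub_smul, neg_smul, pow_two, pow_two, mul_smul, mul_smul]
  have hAs : ∀ y : B, A • y = y + (A - 1) • y := by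
    intro y
    rw [sub_smul, one_smul]; abel
  have h2 : ∀ y : B, (A - 1) • ((A - 1) • y) = 0 := by
    intro y
    rw [smul_smul]; exact hr y
  rw [h1, A'_smul hA hr, A'_smul hA hr, hAs, hAs, smul_add, smul_sub, h2]
  noncomm_ring

theorem isCox (hA : A * A' = 1) (hd : d = - A ^ 2 - A' ^ 2) (h : IsTLr m d e)
    (hr : ∀ x : B, ((A - 1) * (A - 1)) • x = 0) : IsCox m (fun i => -(1 + e i)) := by
  have hsq : ∀ i, i + 1 < m → e i * e i = -2 * e i := by
    intro i hi
    rw [h.sq i hi, d_smul hA hd hr]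
  refine ⟨?_, ?_, ?_⟩
  · intro i hi
    have h1 := hsq i hi
    calc -(1 + e i) * -(1 + e i) = 1 + 2 * e i + e i * e i := by noncomm_ring
      _ = 1 := by rw [h1]; noncomm_ring
  · intro i hi
    have h1 := hsq i (by omega)
    have h2 := hsq (i+1) (by omega)
    have h3 := h.up i hi
    have h4 := h.down i hi
    set x := e i
    set y := e (i+1)
    calc -(1 + x) * -(1 + y) * -(1 + x) = -(1 + 2 * x + y + x * y + y * x + x * x + x * y * x) := by
          noncomm_ring
      _ = -(1 + x + y + x * y + y * x) := by rw [h1, h3]; noncomm_ring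
      _ = -(1 + 2 * y + x + x * y + y * x + y * y + y * x * y) := by rw [h2, h4]; noncomm_ring
      _ = -(1 + y) * -(1 + x) * -(1 + y) := by noncomm_ring
  · intro i j hj hij
    have h1 := h.far i j hj hij
    calc -(1 + e i) * -(1 + e j) = 1 + e i + e j + e i * e j := by
          noncomm_ring
      _ = 1 + e i + e j + e j * e i := by rw [h1]
      _ = -(1 + e j) * -(1 + e i) := by noncomm_ring

theorem ltr_first (hA : A * A' = 1) (hr : ∀ x : B, ((A - 1) * (A - 1)) • x = 0) (x : Bool × ℕ) :
    ltr A A' e x = -(-(1 + e x.2) - sgL x • (A - 1) • (2 + -(1 + e x.2))) := by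
  unfold ltr sgL
  have hAs : ∀ y : B, A • y = y + (A - 1) • y := by
    intro y
    rw [sub_smul, one_smul]; abel
  split_ifs
  · rw [A'_smul hA hr, hAs, one_smul, smul_add, smul_neg, smul_add]
    have : (A - 1) • (2 : B) = (A - 1) • (1 : B) + (A - 1) • (1 : B) := by
      rw [← smul_add]; norm_num
    rw [this]
    abel
  · rw [A'_smul hA hr, hAs, smul_add, smul_neg, smul_add]
    have : (A - 1) • (2 : B) = (A - 1) • (1 : B) + (A - 1) • (1 : B) := by
      rw [← smul_add]; norm_num
    rw [this, neg_smul, one_smul, smul_add]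
    abel

theorem wd_first (hA : A * A' = 1) (hr : ∀ x : B, ((A - 1) * (A - 1)) • x = 0)
    (w : List (Bool × ℕ)) : wd A A' e w =
      (-1 : ℤ) ^ w.length • (SW e w - (A - 1) • ((2 : ℤ) • D1 e w + ex w • SW e w)) := by
  induction w with
  | nil => simp [wd, SW, D1, dels, ex]
  | cons x w ih =>
    have h1 : wd A A' e (x :: w) = ltr A A' e x * wd A A' e w := by simp [wd]
    have h2 : ex (x :: w) = sgL x + ex w := by simp [ex]
    have h3 : ∀ y : B, (A - 1) • ((A - 1) • y) = 0 := by
      intro y
      rw [smul_smul]; exact hr y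
    rw [h1, ih, ltr_first hA hr, SW_cons, D1_cons, h2, List.length_cons, pow_succ]
    set s := -(1 + e x.2)
    set r := A - 1
    set S := SW e w
    set D := D1 e w
    set ε := sgL x
    set n := ex w
    rw [mul_smul_comm, mul_comm ((-1 : ℤ) ^ w.length), mul_smul, neg_smul, one_smul]
    congr 1
    have e1 : (s - ε • r • (2 + s)) * (S - r • ((2 : ℤ) • D + n • S)) =
        s * S - r • (ε • (2 * S + s * S)) - r • ((2 : ℤ) • (s * D) + n • (s * S)) := by
      rw [sub_mul, mul_sub, mul_sub, smul_mul_assoc, smul_mul_assoc, smul_mul_assoc, smul_mul_assoc,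
        mul_smul_comm r (2 + s), h3, smul_zero, sub_zero, mul_smul_comm, mul_add, mul_smul_comm,
        mul_smul_comm, add_mul, smul_comm ε r]
      abel
    rw [neg_mul, e1, smul_neg]
    congr 1
    congr 1
    rw [sub_sub, ← smul_add]
    congr 2
    rw [smul_add, smul_add, add_smul]
    have e2 : ε • (2 * S) = (2 : ℤ) • ε • S := by
      rw [← smul_comm, two_mul, two_smul]
    rw [e2]
    abel

theorem wd_pure (hA : A * A' = 1) (hd : d = - A ^ 2 - A' ^ 2) (h : IsTLr m d e)
    (hr : ∀ x : B, ((A - 1) * (A - 1)) • x = 0)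
    (w : List (Bool × ℕ)) (hw : ∀ x ∈ w, x.2 + 1 < m) (hev : Even w.length)
    (hp : (w.map (fun x => Equiv.swap x.2 (x.2+1))).prod = 1) :
    wd A A' e w = 1 - (A - 1) • ((2 : ℤ) • D1 e w + ex w • 1) := by
  have h1 : SW e w = 1 := by
    have h1 := cox_word (isCox hA hd h hr) (w.map Prod.snd) (by
      intro i hi
      obtain ⟨x, hx, rfl⟩ := List.mem_map.1 hi
      exact hw x hx) (by rw [List.map_map]; exact hp)
    rw [List.map_map] at h1
    exact h1
  rw [wd_first hA hr, h1, hev.neg_one_pow, one_smul]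

end

end Pool.Agent.H970.TF
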