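import Pool.Agent.H970_TF.Alg

/-!
# Pure braid words up to the second order at `A = 1`
-/

set_option autoImplicit false

namespace Pool.Agent.H970.TF

open Pool.Agent.Y463.SK

variable {R B C : Type*} [CommRing R] [Ring B] [Algebra R B] [Ring C] [Algebra R C]
variable {m : ℕ} {A A' d : R} {e : ℕ → B}

theorem map_SW (q : B →ₐ[R] C) (e : ℕ → B) (w : List (Bool × ℕ)) :
    q (SW e w) = SW (fun i => q (e i)) w := by
  unfold SW
  rw [map_list_prod, List.map_map]
  congr 1
  apply List.map_congr_left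
  intro x _
  simp

theorem map_D1 (q : B →ₐ[R] C) (e : ℕ → B) (w : List (Bool × ℕ)) :
    q (D1 e w) = D1 (fun i => q (e i)) w := by
  unfold D1
  rw [map_list_sum, List.map_map]
  congr 1
  apply List.map_congr_left
  intro x _
  simp [map_SW]

theorem map_wd (q : B →ₐ[R] C) (e : ℕ → B) (w : List (Bool × ℕ)) :
    q (wd A A' e w) = wd A A' (fun i => q (e i)) w := by
  unfold wd
  rw [map_list_prod, List.map_map]
  congr 1
  apply List.map_congr_left
  intro x _
  rw [Function.comp_apply]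
  unfold ltr
  split_ifs <;> simp

theorem ex_dels (w : List (Bool × ℕ)) : ((dels w).map (fun p => p.1)).sum = ex w := by
  induction w with
  | nil => simp [dels, ex]
  | cons x w ih =>
    rw [dels, List.map_cons, List.sum_cons, List.map_map]
    have : ((fun p : ℤ × List (Bool × ℕ) => p.1) ∘ fun p => (p.1, x :: p.2)) =
      fun p : ℤ × List (Bool × ℕ) => p.1 := rfl
    rw [this, ih]
    simp [ex]

/-- the first order term of the normalised braid -/
def KK1 (e : ℕ → B) (w : List (Bool × ℕ)) : B :=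
  ((dels w).map (fun p => p.1 • ((4 : ℤ) • (1 : B) + (2 : ℤ) • SW e p.2))).sum

theorem KK1_eq (e : ℕ → B) (w : List (Bool × ℕ)) :
    KK1 e w = (2 : ℤ) • D1 e w + (4 * ex w) • (1 : B) := by
  rw [← ex_dels]
  unfold KK1 D1
  induction dels w with
  | nil => simp
  | cons p l ih =>
    rw [List.map_cons, List.sum_cons, ih, List.map_cons, List.sum_cons, List.map_cons, List.sum_cons]
    module

theorem pure_first (hA : A * A' = 1) (hd : d = - A ^ 2 - A' ^ 2) (h : IsTLr m d e)
    (w : List (Bool × ℕ)) (hw : ∀ x ∈ w, x.2 + 1 < m) (hev : Even w.length)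
    (hp : (w.map (fun x => Equiv.swap x.2 (x.2+1))).prod = 1) (u c : R)
    (hu : u = 1 - ((3 * ex w : ℤ) : R) * (A - 1) + ((A - 1) * (A - 1)) * c) :
    ∃ z : B, u • wd A A' e w = 1 - (A - 1) • KK1 e w + ((A - 1) * (A - 1)) • z := by
  set r := A - 1 with hr
  set I : Ideal B := Ideal.span {algebraMap R B (r * r)} with hI
  have htwo : I.IsTwoSided := by
    constructor
    intro a b ha
    rw [hI, Ideal.mem_span_singleton'] at ha ⊢
    obtain ⟨c, rfl⟩ := ha
    refine ⟨c * b, ?_⟩
    rw [mul_assoc, mul_assoc, Algebra.commutes]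
  let q : B →ₐ[R] (B ⧸ I) := Ideal.Quotient.mkₐ R I
  have h0 : ∀ x : B ⧸ I, (r * r) • x = 0 := by
    intro x
    obtain ⟨y, rfl⟩ := Ideal.Quotient.mkₐ_surjective R I x
    show (r * r) • (q y) = 0
    rw [← map_smul, Algebra.smul_def]
    show Ideal.Quotient.mk I _ = 0
    rw [Ideal.Quotient.eq_zero_iff_mem, hI, Ideal.mem_span_singleton']
    exact ⟨y, (Algebra.commutes _ _).symm⟩
  have hTL : IsTLr m d (fun i => q (e i)) := by
    refine ⟨?_, ?_, ?_, ?_⟩
    · intro i hi
      rw [← map_mul, h.sq i hi, map_smul]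
    · intro i hi
      rw [← map_mul, ← map_mul, h.up i hi]
    · intro i hi
      rw [← map_mul, ← map_mul, h.down i hi]
    · intro i j hj hij
      rw [← map_mul, ← map_mul, h.far i j hj hij]
  have h1 := wd_pure hA hd hTL h0 w hw hev hp
  have h5 : ∀ (k : R) (X : B ⧸ I), (k * r) • (A - 1) • X = 0 := by
    intro k X
    rw [mul_smul, ← hr, smul_smul r r, h0, smul_zero]
  have e1 : ((3 * ex w : ℤ) : R) • r • (1 : B ⧸ I) = (3 * ex w : ℤ) • r • (1 : B ⧸ I) :=
    Int.cast_smul_eq_zsmul R (3 * ex w) (r • (1 : B ⧸ I))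
  have h2 : q (u • wd A A' e w - (1 - r • KK1 e w)) = 0 := by
    rw [map_sub, map_smul, map_wd, h1, map_sub, map_one, map_smul, KK1_eq, map_add, map_zsmul,
      map_D1, map_zsmul, map_one, hu, add_smul, mul_comm (r * r) c, mul_smul c, h0, smul_zero,
      add_zero, sub_smul, one_smul, smul_sub, h5, sub_zero, mul_smul, e1, ← hr]
    module
  have h3 : u • wd A A' e w - (1 - r • KK1 e w) ∈ I := by
    rw [← Ideal.Quotient.eq_zero_iff_mem]
    exact h2
  rw [hI, Ideal.mem_span_singleton'] at h3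
  obtain ⟨z, hz⟩ := h3
  refine ⟨z, ?_⟩
  rw [Algebra.smul_def (r * r), Algebra.commutes, hz]
  abel

theorem sq_form (r : R) (y K z Y t : B) (hy : y = 1 - r • K + (r * r) • z) (hY : Y = 1 + r • t) :
    ∃ z' : B, (y - 1) * (y - 1) * Y = (r * r) • (K * K + r • z') := by
  refine ⟨-(K * z) - z * K + r • (z * z) + K * K * t - r • (K * z * t) - r • (z * K * t) +
    (r * r) • (z * z * t), ?_⟩
  have h1 : y - 1 = -(r • K) + (r * r) • z := by rw [hy]; abel
  rw [h1, hY]
  simp only [mul_add, add_mul, smul_mul_assoc, mul_smul_comm, mul_neg, neg_mul, mul_one, smul_add,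
    smul_neg, smul_sub, smul_smul]
  module

end Pool.Agent.H970.TF
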