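import Pool.Agent.H970_TF.Func2

/-!
# The second differences of the normalised brackets
-/

set_option autoImplicit false

namespace Pool.Agent.H970.TF

open Finset LaurentPolynomial Pool.Agent.H891R2.Jones Pool.Agent.W639.RB Pool.Agent.Y463.SK

variable {m : ℕ}

theorem dels_mem (w : List (Bool × ℕ)) : ∀ p ∈ dels w, ∀ x ∈ p.2, x ∈ w := by
  induction w with
  | nil => intro p hp; simp [dels] at hp
  | cons x w ih =>
    intro p hp y hy
    rw [dels, List.mem_cons, List.mem_map] at hp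
    rcases hp with rfl | ⟨q, hq, rfl⟩
    · exact List.mem_cons_of_mem _ hy
    · rcases List.mem_cons.1 hy with rfl | hy
      · exact List.mem_cons_self
      · exact List.mem_cons_of_mem _ (ih q hq y hy)

section generic
variable {R B : Type*} [CommRing R] [Ring B] [Algebra R B] {e : ℕ → B}

theorem KK1_sq (w : List (Bool × ℕ)) : KK1 e w * KK1 e w =
    ((dels w).map (fun p => ((dels w).map (fun p' => (p.1 * p'.1) • ((16 : ℤ) • (1 : B) +
      (8 : ℤ) • SW e p.2 + (8 : ℤ) • SW e p'.2 + (4 : ℤ) • SW e (p.2 ++ p'.2)))).sum)).sum := by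
  have h1 : ∀ x : B, KK1 e w * x =
      ((dels w).map (fun p => (p.1 • ((4 : ℤ) • (1 : B) + (2 : ℤ) • SW e p.2)) * x)).sum := by
    intro x
    unfold KK1
    rw [List.sum_map_mul_right]
  rw [h1]
  congr 1
  apply List.map_congr_left
  intro p _
  unfold KK1
  rw [← List.sum_map_mul_left]
  congr 1
  apply List.map_congr_left
  intro p' _
  rw [SW_append, smul_mul_smul_comm]
  congr 1
  set S := SW e p.2
  set S' := SW e p'.2
  rw [add_mul, mul_add, mul_add, smul_mul_smul_comm, smul_mul_smul_comm, smul_mul_smul_comm,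
    smul_mul_smul_comm, one_mul, one_mul, mul_one]
  norm_num
  abel

theorem sd_ring {C : Type*} [Ring C] (y X : C) :
    y * (y * X) - (2 : ℤ) • (y * X) + X = (y - 1) * (y - 1) * X := by
  noncomm_ring

end generic

/-- the constant of the second differences -/
noncomputable def kap (O : Outer m) (v w : List (Bool × ℕ)) : ℤ :=
  ((dels w).map (fun p => ((dels w).map (fun p' => (p.1 * p'.1) * (16 * psi O v [] +
    8 * psi O v p.2 + 8 * psi O v p'.2 + 4 * psi O v (p.2 ++ p'.2)))).sum)).sum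

theorem HV_KK (hm : 0 < m) (O : Outer m) (hO : ∀ j, O.up j = true) (w v : List (Bool × ℕ))
    (hw : ∀ y ∈ w, y.2 + 1 < m) (hv : ∀ y ∈ v, y.2 + 1 < m) :
    HV O v ((KK1 (eS m) w * KK1 (eS m) w : S0 m) : BB m) (kap O v w) := by
  rw [KK1_sq]
  have h0 : ∀ (L : List (ℤ × List (Bool × ℕ))) (f : ℤ × List (Bool × ℕ) → S0 m),
      (((L.map f).sum : S0 m) : BB m) = (L.map (fun p => (f p : BB m))).sum := by
    intro L f
    have := map_list_sum (S0 m).val (L.map f)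
    rw [List.map_map] at this
    exact this
  rw [h0]
  unfold kap
  refine HV.listSum _ _ _ fun p hp => ?_
  rw [h0]
  refine HV.listSum _ _ _ fun p' hp' => ?_
  have hx : ∀ y ∈ p.2, y.2 + 1 < m := fun y hy => hw y (dels_mem w p hp y hy)
  have hx' : ∀ y ∈ p'.2, y.2 + 1 < m := fun y hy => hw y (dels_mem w p' hp' y hy)
  have hxx : ∀ y ∈ p.2 ++ p'.2, y.2 + 1 < m := by
    intro y hy
    rcases List.mem_append.1 hy with h | h
    · exact hx y h
    · exact hx' y h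
  have g1 := HV_SW hm O hO [] v (by simp) hv
  have g2 := HV_SW hm O hO p.2 v hx hv
  have g3 := HV_SW hm O hO p'.2 v hx' hv
  have g4 := HV_SW hm O hO (p.2 ++ p'.2) v hxx hv
  exact ((((g1.zsmul 16).add (g2.zsmul 8)).add (g3.zsmul 8)).add (g4.zsmul 4)).zsmul (p.1 * p'.1)

theorem ex_expo (w : List (Bool × ℕ)) : ex w = expo w := rfl

theorem expo_powL {w : List (Bool × ℕ)} (hw : ∀ x ∈ w, x.2 + 1 < m)
    (h : permL w = 1) (n : ℤ) : expo (powL w n) = n * expo w := by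
  have h1 := costS_powL h (fun _ => 1) n
  rw [cost_up (m := m) _ _ (fun _ _ => rfl) (powL_lt hw n),
    cost_up (m := m) _ _ (fun _ _ => rfl) hw] at h1
  exact h1

/-- **The second differences.** -/
theorem second_diff (hm : 0 < m) (O : Outer m) (hO : ∀ j, O.up j = true) (w v : List (Bool × ℕ))
    (hw : ∀ y ∈ w, y.2 + 1 < m) (hp : permL w = 1) (hv : ∀ y ∈ v, y.2 + 1 < m) (n : ℤ) :
    ∃ P : ℤ[T;T⁻¹], ff O (powL w (n+2) ++ v) - 2 * ff O (powL w (n+1) ++ v) + ff O (powL w n ++ v) =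
      ((T 1 - 1) * (T 1 - 1)) * P ∧ ev1 P = kap O v w := by
  set r : ℤ[T;T⁻¹] := T 1 - 1 with hr
  set X : ℤ → S0 m := fun n => (T (-3 * (n * expo w)) : ℤ[T;T⁻¹]) •
    wd (T 1 : ℤ[T;T⁻¹]) (T (-1)) (eS m) (powL w n) with hX
  have hval : ∀ n : ℤ, ∀ N : {N : ℕ // 3 ≤ N}, (N.1 : ℂ) * ev N.1 N.2 (ff O (powL w n ++ v)) =
      Kn O v N * Fn O N v (X n : BB m) := by
    intro n N
    have h1 := key_formula hm O w hw hp v hv N n
    rw [cost_up (m := m) v _ (fun j hj => pat_up hO j hj) hv,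
      cost_up (m := m) w _ (fun j hj => pat_up hO j hj) hw] at h1
    rw [h1, Kn]
    congr 2
    rw [← coe_wd]
    rfl
  set y : S0 m := (T (-3 * expo w) : ℤ[T;T⁻¹]) • wd (T 1 : ℤ[T;T⁻¹]) (T (-1)) (eS m) w with hy
  have hXs : ∀ n, X (n+1) = y * X n := by
    intro n
    apply Subtype.ext
    show (T (-3 * ((n+1) * expo w)) : ℤ[T;T⁻¹]) •
      ((wd (T 1 : ℤ[T;T⁻¹]) (T (-1)) (eS m) (powL w (n+1)) : S0 m) : BB m) =
      ((T (-3 * expo w) : ℤ[T;T⁻¹]) • ((wd (T 1 : ℤ[T;T⁻¹]) (T (-1)) (eS m) w : S0 m) : BB m)) *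
      ((T (-3 * (n * expo w)) : ℤ[T;T⁻¹]) •
        ((wd (T 1 : ℤ[T;T⁻¹]) (T (-1)) (eS m) (powL w n) : S0 m) : BB m))
    rw [coe_wd, coe_wd, coe_wd, bb_pow_succ w hw n, smul_mul_smul_comm, ← T_add]
    congr 2
    ring
  have hd : (-(T 1)^2 - (T (-1))^2 : ℤ[T;T⁻¹]) = -(T 1)^2 - (T (-1))^2 := rfl
  -- first order of `y`
  have hfirst : ∀ w' : List (Bool × ℕ), (∀ y ∈ w', y.2 + 1 < m) → permL w' = 1 →
      ∃ z : S0 m, (T (-3 * expo w') : ℤ[T;T⁻¹]) • wd (T 1 : ℤ[T;T⁻¹]) (T (-1)) (eS m) w' =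
        1 - r • KK1 (eS m) w' + (r * r) • z := by
    intro w' hw' hp'
    obtain ⟨c, hc⟩ := T_first (-3 * expo w')
    exact pure_first T_mul_inv hd (isTLr_eS m) w' hw' (even_length w' hw' hp') hp' _ c (by
      rw [hc, ex_expo]
      push_cast
      ring)
  obtain ⟨z, hz⟩ := hfirst w hw hp
  obtain ⟨z', hz'⟩ := hfirst (powL w n) (powL_lt hw n) (permL_powL hp n)
  rw [expo_powL hw hp] at hz'
  have hXn : X n = 1 + r • (-KK1 (eS m) (powL w n) + r • z') := by
    rw [hX]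
    simp only
    rw [hz', smul_add, smul_neg, smul_smul]
    abel
  obtain ⟨z'', hz''⟩ := sq_form r y (KK1 (eS m) w) z (X n) _ hz hXn
  obtain ⟨c, hc⟩ := HV_exists hm O hO v hv z''
  obtain ⟨P, hP1, hP2⟩ := (HV_KK hm O hO w v hw hv).add (hc.smul r)
  refine ⟨P, ?_, by rw [hP1, ev1_r, zero_mul, add_zero]⟩
  rw [← sub_eq_zero]
  apply eq_zero_of_ev
  intro N hN
  have hNC : (N : ℂ) ≠ 0 := by
    rw [Nat.cast_ne_zero]; omega
  have e1 : X (n+2) - (2 : ℤ) • X (n+1) + X n = (y - 1) * (y - 1) * X n := by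
    have h2 : X (n+2) = y * (y * X n) := by
      rw [← hXs, ← hXs]
      congr 1
      ring
    rw [h2, hXs]
    exact sd_ring y (X n)
  rw [hz''] at e1
  have e2 : (X (n+2) : BB m) - (2 : ℤ) • (X (n+1) : BB m) + (X n : BB m) =
      (r * r) • (((KK1 (eS m) w * KK1 (eS m) w : S0 m) : BB m) + r • (z'' : BB m)) :=
    congrArg (fun x : S0 m => (x : BB m)) e1
  have h3 := hP2 ⟨N, hN⟩
  have h4 := hval (n+2) ⟨N, hN⟩
  have h5 := hval (n+1) ⟨N, hN⟩
  have h6 := hval n ⟨N, hN⟩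
  have h7 := congrArg (Fn O ⟨N, hN⟩ v) e2
  rw [Fn_smul, Fn_add, Fn_sub, two_smul, Fn_add] at h7
  simp only at h3 h4 h5 h6 h7
  have h8 : (N : ℂ) * ev N hN (ff O (powL w (n+2) ++ v) - 2 * ff O (powL w (n+1) ++ v) +
      ff O (powL w n ++ v) - r * r * P) = 0 := by
    rw [map_sub, map_add, map_sub, map_mul, map_mul (ev N hN) (r * r)]
    have h9 : ev N hN 2 = 2 := map_ofNat _ 2
    rw [h9]
    linear_combination h4 - 2 * h5 + h6 - (ev N hN (r * r)) * h3 + (Kn O v ⟨N, hN⟩) * h7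
  exact (mul_eq_zero.1 h8).resolve_left hNC

end Pool.Agent.H970.TF
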