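import Pool.Agent.Y463.BS.Last
import Pool.Agent.H970_TF.Func3

/-!
# Components of the closures
-/

set_option autoImplicit false

namespace Pool.Agent.H970.TF

open Finset LaurentPolynomial Pool.Agent.H891R2.Jones Pool.Agent.W639.RB Pool.Agent.Y463.SK
open Pool.Agent.Y463.BS (E IsKnot Strand X E_nil lp_same lp_join card_strand mem_X)

/-- comparison of the numbers of classes -/
theorem lp_equiv {P Q : Type} (M' : List (Q × Q)) (M : List (P × P)) (f : Q → P) (g : P → Q)
    (h1 : ∀ z ∈ M', E M (f z.1) (f z.2)) (h2 : ∀ z ∈ M, E M' (g z.1) (g z.2))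
    (h3 : ∀ p, f (g p) = p) (h4 : ∀ q, E M' (g (f q)) q) : Y463.BS.lp M' = Y463.BS.lp M := by
  have l1 : ∀ a b, E M' a b → E M (f a) (f b) := by
    intro a b h
    induction h with
    | rel x y hxy => exact h1 _ hxy
    | refl x => exact E.refl _ _
    | symm x y _ ih => exact ih.symm
    | trans x y z _ _ ih ih' => exact ih.trans ih'
  have l2 : ∀ a b, E M a b → E M' (g a) (g b) := by
    intro a b h
    induction h with
    | rel x y hxy => exact h2 _ hxy
    | refl x => exact E.refl _ _
    | symm x y _ ih => exact ih.symm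
    | trans x y z _ _ ih ih' => exact ih.trans ih'
  unfold Y463.BS.lp
  refine Nat.card_congr ⟨Quot.map f l1, Quot.map g l2, ?_, ?_⟩
  · rintro ⟨q⟩
    exact Quot.sound (h4 q)
  · rintro ⟨p⟩
    show Quot.mk _ (f (g p)) = Quot.mk _ p
    rw [h3]

variable {m : ℕ}

/-- the connections outside of the box -/
def LO (O : Outer m) : List (O.P × O.P) := X O.crossings ++ O.arcs

/-- the number of closed curves if the box is closed by the permutation `σ` -/
noncomputable def cyc (O : Outer m) (σ : Equiv.Perm (Fin m)) : ℕ :=
  Y463.BS.lp (LO O ++ (List.finRange m).map (fun j => (O.lower j, O.upper (σ j))))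

theorem cyc_push (O : Outer m) (pos : Bool) (i : ℕ) (hi : i + 1 < m) (σ : Equiv.Perm (Fin m)) :
    cyc (O.push pos i) σ =
      cyc O (σ * Equiv.swap ⟨i, Nat.lt_of_succ_lt hi⟩ ⟨i+1, hi⟩) := by
  unfold cyc LO Outer.push
  rw [dif_pos hi]
  set p : Fin m := ⟨i, Nat.lt_of_succ_lt hi⟩ with hp
  set q : Fin m := ⟨i+1, hi⟩ with hq
  have hpq : p ≠ q := by
    intro h
    have := congrArg Fin.val h
    simp [hp, hq] at this
  simp only
  set s : Equiv.Perm (Fin m) := Equiv.swap p q with hs
  set M' : List ((O.P ⊕ Fin m) × (O.P ⊕ Fin m)) :=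
    (X (O.crossings.map (Crossing.map .inl) ++ [O.newCrossing p q pos]) ++
      (O.arcs.map (Prod.map .inl .inl) ++
        ((List.finRange m).filter (fun j => j ≠ p ∧ j ≠ q)).map
          (fun j => if O.up j then (.inl (O.lower j), .inr j) else (.inr j, .inl (O.lower j))))) ++
      (List.finRange m).map (fun j => (.inr j, .inl (O.upper (σ j)))) with hM'
  have m1 : ∀ x ∈ O.crossings, (Sum.inl x.a, Sum.inl x.c) ∈ M' ∧ (Sum.inl x.b, Sum.inl x.d) ∈ M' := by
    intro x hx
    rw [hM']
    constructor
    · refine List.mem_append_left _ (List.mem_append_left _ ((mem_X _ _ _).2 ⟨x.map .inl, ?_, Or.inl ⟨rfl, rfl⟩⟩))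
      exact List.mem_append_left _ (List.mem_map.2 ⟨x, hx, rfl⟩)
    · refine List.mem_append_left _ (List.mem_append_left _ ((mem_X _ _ _).2 ⟨x.map .inl, ?_, Or.inr ⟨rfl, rfl⟩⟩))
      exact List.mem_append_left _ (List.mem_map.2 ⟨x, hx, rfl⟩)
  have m2 : ((O.newCrossing p q pos).a, (O.newCrossing p q pos).c) ∈ M' ∧
      ((O.newCrossing p q pos).b, (O.newCrossing p q pos).d) ∈ M' := by
    rw [hM']
    constructor
    · refine List.mem_append_left _ (List.mem_append_left _ ((mem_X _ _ _).2 ⟨_, ?_, Or.inl ⟨rfl, rfl⟩⟩))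
      exact List.mem_append_right _ (List.mem_singleton.2 rfl)
    · refine List.mem_append_left _ (List.mem_append_left _ ((mem_X _ _ _).2 ⟨_, ?_, Or.inr ⟨rfl, rfl⟩⟩))
      exact List.mem_append_right _ (List.mem_singleton.2 rfl)
  have m3 : ∀ z ∈ O.arcs, (Sum.inl z.1, Sum.inl z.2) ∈ M' := by
    intro z hz
    rw [hM']
    refine List.mem_append_left _ (List.mem_append_right _ (List.mem_append_left _ ?_))
    exact List.mem_map.2 ⟨z, hz, rfl⟩
  have m4 : ∀ j : Fin m, j ≠ p → j ≠ q → E M' (.inl (O.lower j)) (.inr j) := by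
    intro j h1 h2
    have h3 : (if O.up j then ((Sum.inl (O.lower j) : O.P ⊕ Fin m), (Sum.inr j : O.P ⊕ Fin m)) else
        (Sum.inr j, Sum.inl (O.lower j))) ∈ M' := by
      rw [hM']
      refine List.mem_append_left _ (List.mem_append_right _ (List.mem_append_right _ ?_))
      refine List.mem_map.2 ⟨j, ?_, rfl⟩
      rw [List.mem_filter]
      exact ⟨List.mem_finRange j, by simp [h1, h2]⟩
    split_ifs at h3
    · exact E.of_mem h3
    · exact (E.of_mem h3).symm
  have m5 : ∀ j : Fin m, (Sum.inr j, Sum.inl (O.upper (σ j))) ∈ M' := by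
    intro j
    rw [hM']
    exact List.mem_append_right _ (List.mem_map.2 ⟨j, List.mem_finRange j, rfl⟩)
  have m6 : ∀ j : Fin m, E M' (.inl (O.lower (s j))) (.inr j) := by
    intro j
    by_cases h1 : j = p
    · have e1 : s j = q := by rw [h1, hs, Equiv.swap_apply_left]
      rw [e1, h1]
      obtain ⟨g1, g2⟩ := m2
      unfold Outer.newCrossing at g1 g2
      cases pos
      · simp only [Bool.false_eq_true, if_false] at g1 g2
        exact E.of_mem g2
      · simp only [if_true] at g1 g2
        exact E.of_mem g1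
    · by_cases h2 : j = q
      · have e1 : s j = p := by rw [h2, hs, Equiv.swap_apply_right]
        rw [e1, h2]
        obtain ⟨g1, g2⟩ := m2
        unfold Outer.newCrossing at g1 g2
        cases pos
        · simp only [Bool.false_eq_true, if_false] at g1 g2
          exact E.of_mem g1
        · simp only [if_true] at g1 g2
          exact (E.of_mem g2).symm
      · have e1 : s j = j := by rw [hs, Equiv.swap_apply_of_ne_of_ne h1 h2]
        rw [e1]
        exact m4 j h1 h2
  set M : List (O.P × O.P) := (X O.crossings ++ O.arcs) ++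
    (List.finRange m).map (fun j => (O.lower j, O.upper ((σ * s) j))) with hM
  have n5 : ∀ j : Fin m, (O.lower j, O.upper ((σ * s) j)) ∈ M := by
    intro j
    rw [hM]
    exact List.mem_append_right _ (List.mem_map.2 ⟨j, List.mem_finRange j, rfl⟩)
  have n1 : ∀ z ∈ X O.crossings ++ O.arcs, z ∈ M := by
    intro z hz
    rw [hM]
    exact List.mem_append_left _ hz
  let f : O.P ⊕ Fin m → O.P := Sum.elim id (fun j => O.lower (s j))
  refine lp_equiv M' M f Sum.inl ?_ ?_ (fun _ => rfl) ?_
  · intro z hz
    rw [hM'] at hz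
    rcases List.mem_append.1 hz with hz | hz
    · rcases List.mem_append.1 hz with hz | hz
      · obtain ⟨x, hx, hx'⟩ := (mem_X _ z.1 z.2).1 hz
        rcases List.mem_append.1 hx with hx | hx
        · obtain ⟨y, hy, rfl⟩ := List.mem_map.1 hx
          rcases hx' with ⟨e1, e2⟩ | ⟨e1, e2⟩
          · rw [e1, e2]
            exact E.of_mem (n1 _ (List.mem_append_left _ ((mem_X _ _ _).2 ⟨y, hy, Or.inl ⟨rfl, rfl⟩⟩)))
          · rw [e1, e2]
            exact E.of_mem (n1 _ (List.mem_append_left _ ((mem_X _ _ _).2 ⟨y, hy, Or.inr ⟨rfl, rfl⟩⟩)))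
        · rw [List.mem_singleton] at hx
          subst hx
          have ep : f (.inr p) = O.lower q := by
            show O.lower (s p) = O.lower q
            rw [hs, Equiv.swap_apply_left]
          have eq' : f (.inr q) = O.lower p := by
            show O.lower (s q) = O.lower p
            rw [hs, Equiv.swap_apply_right]
          rcases hx' with ⟨e1, e2⟩ | ⟨e1, e2⟩
          · rw [e1, e2]
            unfold Outer.newCrossing
            cases pos
            · simp only [Bool.false_eq_true, if_false, eq']
              exact E.refl _ _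
            · simp only [if_true, ep]
              exact E.refl _ _
          · rw [e1, e2]
            unfold Outer.newCrossing
            cases pos
            · simp only [Bool.false_eq_true, if_false, ep]
              exact E.refl _ _
            · simp only [if_true, eq']
              exact E.refl _ _
      · rcases List.mem_append.1 hz with hz | hz
        · obtain ⟨y, hy, rfl⟩ := List.mem_map.1 hz
          exact E.of_mem (n1 _ (List.mem_append_right _ hy))
        · obtain ⟨j, hj, rfl⟩ := List.mem_map.1 hz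
          rw [List.mem_filter] at hj
          have h1 : j ≠ p ∧ j ≠ q := by simpa using hj.2
          have e1 : f (.inr j) = O.lower j := by
            show O.lower (s j) = O.lower j
            rw [hs, Equiv.swap_apply_of_ne_of_ne h1.1 h1.2]
          split_ifs
          · rw [e1]; exact E.refl _ _
          · rw [e1]; exact E.refl _ _
    · obtain ⟨j, _, rfl⟩ := List.mem_map.1 hz
      have h1 := n5 (s j)
      have h2 : (σ * s) (s j) = σ j := by
        rw [Equiv.Perm.mul_apply, hs, Equiv.swap_apply_self]
      rw [h2] at h1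
      exact E.of_mem h1
  · intro z hz
    rw [hM] at hz
    rcases List.mem_append.1 hz with hz | hz
    · rcases List.mem_append.1 hz with hz | hz
      · obtain ⟨x, hx, hx'⟩ := (mem_X _ z.1 z.2).1 hz
        rcases hx' with ⟨e1, e2⟩ | ⟨e1, e2⟩
        · rw [e1, e2]; exact E.of_mem (m1 x hx).1
        · rw [e1, e2]; exact E.of_mem (m1 x hx).2
      · exact E.of_mem (m3 z hz)
    · obtain ⟨j, _, rfl⟩ := List.mem_map.1 hz
      have h1 := m6 (s j)
      have h2 : s (s j) = j := by rw [hs, Equiv.swap_apply_self]
      rw [h2] at h1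
      exact h1.trans (E.of_mem (m5 (s j)))
  · rintro (x | j)
    · exact E.refl _ _
    · exact m6 j

end Pool.Agent.H970.TF
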