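import Pool.Agent.H970_TF.Comp

/-!
# The values at `A = 1` of the closures
-/

set_option autoImplicit false

namespace Pool.Agent.H970.TF

open Finset LaurentPolynomial Pool.Agent.H891R2.Jones Pool.Agent.W639.RB Pool.Agent.Y463.SK
open Pool.Agent.Y463.BS (E IsKnot Strand X E_nil lp_same lp_join card_strand mem_X W W_eq Two al
  m_bracket v lp_mem count_starts pts sign_parity knot_moments)
open Pool.Agent.H832R3.VJ
open Pool.Agent.H832R3.VJ.V7 (moment_term moment_C_mul)
open Pool.Agent.H953R3.Q2 (m_sum m_one T_mul0 T_mul1 mul0 mul1)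

variable {m : ℕ}

/-- the transposition of a place -/
def sF (m : ℕ) (i : ℕ) : Equiv.Perm (Fin m) :=
  if h : i + 1 < m then Equiv.swap ⟨i, Nat.lt_of_succ_lt h⟩ ⟨i+1, h⟩ else 1

/-- the permutation of a word -/
def prm (m : ℕ) : List (Bool × ℕ) → Equiv.Perm (Fin m)
  | [] => 1
  | x :: w => prm m w * sF m x.2

theorem sF_sq (i : ℕ) : sF m i * sF m i = 1 := by
  unfold sF
  split_ifs
  · exact Equiv.swap_mul_self _ _
  · rfl

theorem prm_append (w w' : List (Bool × ℕ)) : prm m (w ++ w') = prm m w' * prm m w := by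
  induction w with
  | nil => simp [prm]
  | cons x w ih => rw [List.cons_append, prm, prm, ih, mul_assoc]

theorem cyc_draw (w : List (Bool × ℕ)) : ∀ (O : Outer m), (∀ x ∈ w, x.2 + 1 < m) →
    ∀ σ : Equiv.Perm (Fin m), cyc (draw O w) σ = cyc O (σ * prm m w) := by
  induction w with
  | nil => intro O _ σ; rw [prm, mul_one]; rfl
  | cons x w ih =>
    intro O hw σ
    have hx := hw x List.mem_cons_self
    have h1 : draw O (x :: w) = draw (O.push x.1 x.2) w := rfl
    rw [h1, ih (O.push x.1 x.2) (fun y hy => hw y (List.mem_cons_of_mem _ hy)),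
      cyc_push O x.1 x.2 hx, prm, sF, dif_pos hx, mul_assoc]

theorem close_cyc (O : Outer m) (hO : ∀ j, O.up j = true) :
    Y463.BS.lp (X O.close.crossings ++ O.close.arcs) = cyc O 1 := by
  unfold cyc LO Outer.close
  simp only [hO, if_true, Equiv.Perm.one_apply, List.append_assoc]

theorem lp_cons_le {P : Type} [Finite P] (z : P × P) (L : List (P × P)) :
    Y463.BS.lp (z :: L) ≤ Y463.BS.lp L ∧ Y463.BS.lp L ≤ Y463.BS.lp (z :: L) + 1 := by
  obtain ⟨a, b⟩ := z
  by_cases h : E L a b
  · rw [lp_same h]; omega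
  · have := lp_join h
    omega

theorem perm_list (O : Outer m) (σ : Equiv.Perm (Fin m)) (a b : Fin m) :
    cyc O σ = Y463.BS.lp ((O.lower a, O.upper (σ a)) :: (O.lower b, O.upper (σ b)) ::
      (LO O ++ ((List.finRange m).filter (fun j => j ≠ a ∧ j ≠ b)).map
        (fun j => (O.lower j, O.upper (σ j))))) := by
  unfold cyc
  apply lp_mem
  intro z
  simp only [List.mem_append, List.mem_cons, List.mem_map, List.mem_filter, List.mem_finRange,
    true_and, decide_eq_true_eq]
  constructor
  · rintro (h | ⟨j, rfl⟩)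
    · exact Or.inr (Or.inr (Or.inl h))
    · by_cases h1 : j = a
      · left; rw [h1]
      · by_cases h2 : j = b
        · right; left; rw [h2]
        · exact Or.inr (Or.inr (Or.inr ⟨j, ⟨h1, h2⟩, rfl⟩))
  · rintro (h | h | h | ⟨j, _, rfl⟩)
    · exact Or.inr ⟨a, h.symm⟩
    · exact Or.inr ⟨b, h.symm⟩
    · exact Or.inl h
    · exact Or.inr ⟨j, rfl⟩

theorem cyc_swap_le (O : Outer m) (σ : Equiv.Perm (Fin m)) (a b : Fin m) :
    cyc O (σ * Equiv.swap a b) ≤ cyc O σ + 2 := by
  rw [perm_list O σ a b, perm_list O (σ * Equiv.swap a b) a b]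
  have h1 : ((List.finRange m).filter (fun j => j ≠ a ∧ j ≠ b)).map
        (fun j => (O.lower j, O.upper ((σ * Equiv.swap a b) j))) =
      ((List.finRange m).filter (fun j => j ≠ a ∧ j ≠ b)).map
        (fun j => (O.lower j, O.upper (σ j))) := by
    apply List.map_congr_left
    intro j hj
    rw [List.mem_filter] at hj
    have h2 : j ≠ a ∧ j ≠ b := by simpa using hj.2
    rw [Equiv.Perm.mul_apply, Equiv.swap_apply_of_ne_of_ne h2.1 h2.2]
  rw [h1]
  set L := LO O ++ ((List.finRange m).filter (fun j => j ≠ a ∧ j ≠ b)).map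
        (fun j => (O.lower j, O.upper (σ j)))
  have e1 := lp_cons_le (O.lower a, O.upper ((σ * Equiv.swap a b) a))
    ((O.lower b, O.upper ((σ * Equiv.swap a b) b)) :: L)
  have e2 := lp_cons_le (O.lower b, O.upper ((σ * Equiv.swap a b) b)) L
  have e3 := lp_cons_le (O.lower a, O.upper (σ a)) ((O.lower b, O.upper (σ b)) :: L)
  have e4 := lp_cons_le (O.lower b, O.upper (σ b)) L
  omega

theorem ev1_moment (f : ℤ[T;T⁻¹]) : ev1 f = moment 0 f := by
  induction f using LaurentPolynomial.induction_on' with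
  | add p q hp hq => rw [map_add, hp, hq, moment_add]
  | C_mul_T n a =>
    rw [map_mul, ev1_T, moment_term, mul_one]
    unfold ev1
    rw [LaurentPolynomial.eval₂_C]
    simp

theorem closed_two {P : Type} [DecidableEq P] (D : Diagram P) (hc : D.IsClosed) :
    Two (al D.arcs D.crossings) := by
  intro p
  right
  have h3 := hc p
  obtain ⟨g1, g2, g3⟩ := count_starts D.crossings p
  unfold Diagram.starts Diagram.ends at h3
  simp only [List.count_append] at h3
  simp only [al, pts, List.count_append]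
  omega

/-- the value at `A = 1` of the normalised bracket of a closed diagram -/
theorem value_closed {P : Type} [Finite P] [DecidableEq P] [Nonempty P] (D : Diagram P)
    (hc : D.IsClosed) :
    -2 * ev1 D.fPoly = (-2) ^ Y463.BS.lp (X D.crossings ++ D.arcs) := by
  rw [ev1_moment]
  obtain ⟨b0, _⟩ := m_bracket D
  rw [W_eq _ _ (closed_two D hc)] at b0
  unfold v at b0
  obtain ⟨t, ht⟩ := sign_parity D.crossings
  have hw : D.writhe = 2 * t + D.crossings.length := by
    unfold Diagram.writhe
    linarith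
  set ε : ℤ := (-1) ^ D.crossings.length with hε
  have hf : D.fPoly = C ε * (T (-3 * D.writhe) * D.bracket) := by
    unfold Diagram.fPoly
    by_cases he : Even D.writhe
    · have he' : Even D.crossings.length := by
        obtain ⟨r, hr⟩ := he
        rw [← Int.even_coe_nat]
        exact ⟨r - t, by linarith⟩
      rw [if_pos he, hε, he'.neg_one_pow, map_one, one_mul, one_mul]
    · have he' : Odd D.crossings.length := by
        by_contra hno
        rw [Nat.not_odd_iff_even] at hno
        obtain ⟨r, hr⟩ := hno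
        exact he ⟨t + r, by rw [hw, hr]; push_cast; ring⟩
      rw [if_neg he, hε, he'.neg_one_pow, map_neg, map_one]
      ring
  have hee : ε * ε = 1 := by
    rw [hε, ← pow_add, ← two_mul, pow_mul]
    norm_num
  rw [hf, moment_C_mul, T_mul0]
  calc -2 * (ε * moment 0 D.bracket) = ε * (-2 * moment 0 D.bracket) := by ring
    _ = ε * ε * (-2) ^ Y463.BS.lp (X D.crossings ++ D.arcs) := by rw [b0]; ring
    _ = _ := by rw [hee, one_mul]

theorem draw_up' (O : Outer m) (hO : ∀ j, O.up j = true) (w : List (Bool × ℕ))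
    (hw : ∀ x ∈ w, x.2 + 1 < m) : ∀ j, (draw O w).up j = true := (draw_up w O hw hO).1

theorem value_ff (hm : 0 < m) (O : Outer m) (hO : ∀ j, O.up j = true) (hc : O.close.IsClosed)
    (w : List (Bool × ℕ)) (hw : ∀ x ∈ w, x.2 + 1 < m) :
    -2 * ev1 (ff O w) = (-2) ^ cyc O (prm m w) := by
  have : Nonempty (draw O w).P := ⟨(draw O w).lower ⟨0, hm⟩⟩
  unfold ff
  rw [value_closed _ (draw_closed w O hw hO hc), close_cyc _ (draw_up' O hO w hw),
    cyc_draw w O hw, one_mul]

theorem knot_ff (hm : 0 < m) (O : Outer m) (hO : ∀ j, O.up j = true) (hc : O.close.IsClosed)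
    (w : List (Bool × ℕ)) (hw : ∀ x ∈ w, x.2 + 1 < m) (h : cyc O (prm m w) = 1) :
    moment 0 (ff O w) = 1 ∧ moment 1 (ff O w) = 0 := by
  have : Nonempty (draw O w).P := ⟨(draw O w).lower ⟨0, hm⟩⟩
  unfold ff
  refine knot_moments _ ⟨draw_closed w O hw hO hc, ?_⟩
  rw [card_strand, close_cyc _ (draw_up' O hO w hw), cyc_draw w O hw, one_mul, h]

/-- the values at `A = 1` of the diagrams with words in the box are the expected ones -/
structure GoodV (O : Outer m) : Prop where
  value : ∀ w : List (Bool × ℕ), (∀ x ∈ w, x.2 + 1 < m) →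
    -2 * ev1 (ff O w) = (-2) ^ cyc O (prm m w)
  knot : ∀ w : List (Bool × ℕ), (∀ x ∈ w, x.2 + 1 < m) → cyc O (prm m w) = 1 →
    moment 0 (ff O w) = 1 ∧ moment 1 (ff O w) = 0

theorem good_closed (hm : 0 < m) (O : Outer m) (hO : ∀ j, O.up j = true)
    (hc : O.close.IsClosed) : GoodV O :=
  ⟨fun w hw => value_ff hm O hO hc w hw, fun w hw h => knot_ff hm O hO hc w hw h⟩

end Pool.Agent.H970.TF
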