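import Pool.Agent.H970_TF.Comp2

/-!
# Deletion of a crossing from a knot, and the sign of the second difference
-/

set_option autoImplicit false

namespace Pool.Agent.H970.TF

open Finset LaurentPolynomial Pool.Agent.H891R2.Jones Pool.Agent.W639.RB Pool.Agent.Y463.SK
open Pool.Agent.H832R3.VJ
open Pool.Agent.H832R3.VJ.V7 (moment_term moment_C_mul)
open Pool.Agent.H953R3.Q2 (m_sum m_one T_mul0 T_mul1 mul0 mul1 m0_T)

variable {m : ℕ}

/-- the value of a word in the functional -/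
noncomputable def Pv (O : Outer m) (x : List (Bool × ℕ)) : ℤ[T;T⁻¹] :=
  ((-1 : ℤ) ^ x.length : ℤ[T;T⁻¹]) * T (3 * expo x) * ff O x

theorem ev_Pv (hm : 0 < m) (O : Outer m) (hO : ∀ j, O.up j = true) (x : List (Bool × ℕ))
    (hx : ∀ y ∈ x, y.2 + 1 < m) (N : {N : ℕ // 3 ≤ N}) :
    (N.1 : ℂ) * ev N.1 N.2 (Pv O x) = Kn O [] N * Fn O N [] (bb m x) := by
  have h := ev_ff_up hm O hO x [] hx (by simp) N
  rw [List.append_nil] at h
  exact h

theorem bb_skein (a b : List (Bool × ℕ)) (i : ℕ) :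
    (T 1 : ℤ[T;T⁻¹]) • bb m (a ++ (true, i) :: b) - (T (-1) : ℤ[T;T⁻¹]) • bb m (a ++ (false, i) :: b) =
      (T 2 - T (-2) : ℤ[T;T⁻¹]) • bb m (a ++ b) := by
  rw [bb_append, bb_append, bb_append, bb_cons, bb_cons]
  have h1 : (T 1 : ℤ[T;T⁻¹]) • ltr (T 1 : ℤ[T;T⁻¹]) (T (-1)) (EB m) (true, i) -
      (T (-1) : ℤ[T;T⁻¹]) • ltr (T 1 : ℤ[T;T⁻¹]) (T (-1)) (EB m) (false, i) =
      (T 2 - T (-2) : ℤ[T;T⁻¹]) • (1 : BB m) := by
    unfold ltr
    simp only [if_true, Bool.false_eq_true, if_false]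
    rw [smul_add, smul_add, smul_smul, smul_smul, smul_smul, smul_smul, ← T_add, ← T_add, ← T_add,
      ← T_add, sub_smul]
    norm_num
  calc _ = bb m a * (((T 1 : ℤ[T;T⁻¹]) • ltr (T 1 : ℤ[T;T⁻¹]) (T (-1)) (EB m) (true, i) -
      (T (-1) : ℤ[T;T⁻¹]) • ltr (T 1 : ℤ[T;T⁻¹]) (T (-1)) (EB m) (false, i)) * bb m b) := by
        rw [sub_mul, mul_sub, smul_mul_assoc, smul_mul_assoc, mul_smul_comm, mul_smul_comm]
    _ = _ := by
        rw [h1, smul_mul_assoc, mul_smul_comm, one_mul]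

theorem skein (hm : 0 < m) (O : Outer m) (hO : ∀ j, O.up j = true) (a b : List (Bool × ℕ)) (i : ℕ)
    (hi : i + 1 < m) (ha : ∀ y ∈ a, y.2 + 1 < m) (hb : ∀ y ∈ b, y.2 + 1 < m) :
    T 1 * Pv O (a ++ (true, i) :: b) - T (-1) * Pv O (a ++ (false, i) :: b) =
      (T 2 - T (-2)) * Pv O (a ++ b) := by
  have hmem : ∀ c : Bool, ∀ y ∈ a ++ (c, i) :: b, y.2 + 1 < m := by
    intro c y hy
    rcases List.mem_append.1 hy with h | h
    · exact ha y h
    · rcases List.mem_cons.1 h with rfl | h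
      · exact hi
      · exact hb y h
  have hmem' : ∀ y ∈ a ++ b, y.2 + 1 < m := by
    intro y hy
    rcases List.mem_append.1 hy with h | h
    · exact ha y h
    · exact hb y h
  have key := congrArg (fun x => x) (bb_skein (m := m) a b i)
  rw [← sub_eq_zero]
  apply eq_zero_of_ev
  intro N hN
  have hNC : (N : ℂ) ≠ 0 := by
    rw [Nat.cast_ne_zero]; omega
  have h1 := ev_Pv hm O hO _ (hmem true) ⟨N, hN⟩
  have h2 := ev_Pv hm O hO _ (hmem false) ⟨N, hN⟩
  have h3 := ev_Pv hm O hO _ hmem' ⟨N, hN⟩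
  have h4 := congrArg (Fn O ⟨N, hN⟩ []) (bb_skein (m := m) a b i)
  rw [Fn_sub, Fn_smul, Fn_smul, Fn_smul] at h4
  simp only at h1 h2 h3 h4
  have h8 : (N : ℂ) * ev N hN (T 1 * Pv O (a ++ (true, i) :: b) -
      T (-1) * Pv O (a ++ (false, i) :: b) - (T 2 - T (-2)) * Pv O (a ++ b)) = 0 := by
    rw [map_sub, map_sub, map_mul, map_mul, map_mul]
    linear_combination (ev N hN (T 1)) * h1 - (ev N hN (T (-1))) * h2 -
      (ev N hN (T 2 - T (-2))) * h3 + (Kn O [] ⟨N, hN⟩) * h4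
  exact (mul_eq_zero.1 h8).resolve_left hNC

theorem m_Pv (O : Outer m) (x : List (Bool × ℕ)) :
    moment 0 (Pv O x) = (-1) ^ x.length * moment 0 (ff O x) ∧
    moment 1 (Pv O x) = (-1) ^ x.length * (3 * expo x * moment 0 (ff O x) + moment 1 (ff O x)) := by
  have h : Pv O x = C ((-1) ^ x.length) * (T (3 * expo x) * ff O x) := by
    unfold Pv
    rw [mul_assoc]
    congr 1
    simp
  rw [h, moment_C_mul, moment_C_mul, T_mul0, T_mul1]
  exact ⟨rfl, rfl⟩

/-- smoothing a crossing of a knot gives a link with two components -/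
theorem smooth_knot (hm : 0 < m) (O : Outer m) (hO : ∀ j, O.up j = true) (hG : GoodV O)
    (a b : List (Bool × ℕ)) (i : ℕ)
    (hi : i + 1 < m) (ha : ∀ y ∈ a, y.2 + 1 < m) (hb : ∀ y ∈ b, y.2 + 1 < m)
    (h : cyc O (prm m (a ++ (true, i) :: b)) = 1) : ev1 (ff O (a ++ b)) = -2 := by
  have hmem : ∀ c : Bool, ∀ y ∈ a ++ (c, i) :: b, y.2 + 1 < m := by
    intro c y hy
    rcases List.mem_append.1 hy with h | h
    · exact ha y h
    · rcases List.mem_cons.1 h with rfl | h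
      · exact hi
      · exact hb y h
  have h' : cyc O (prm m (a ++ (false, i) :: b)) = 1 := by
    have : prm m (a ++ (false, i) :: b) = prm m (a ++ (true, i) :: b) := by
      rw [prm_append, prm_append]; rfl
    rw [this, h]
  obtain ⟨p0, p1⟩ := hG.knot _ (hmem true) h
  obtain ⟨q0, q1⟩ := hG.knot _ (hmem false) h'
  have hs := congrArg (moment 1) (skein hm O hO a b i hi ha hb)
  obtain ⟨a0, a1⟩ := m_Pv O (a ++ (true, i) :: b)
  obtain ⟨b0, b1⟩ := m_Pv O (a ++ (false, i) :: b)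
  obtain ⟨c0, c1⟩ := m_Pv O (a ++ b)
  rw [p0, p1] at a1
  rw [p0] at a0
  rw [q0, q1] at b1
  rw [q0] at b0
  have e1 : expo (a ++ (true, i) :: b) = expo (a ++ b) + 1 := by
    rw [expo_append, expo_append]
    have : expo ((true, i) :: b) = 1 + expo b := by simp [expo]
    rw [this]; ring
  have e2 : expo (a ++ (false, i) :: b) = expo (a ++ b) - 1 := by
    rw [expo_append, expo_append]
    have : expo ((false, i) :: b) = -1 + expo b := by simp [expo]
    rw [this]; ring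
  have l1 : ∀ c : Bool, (a ++ (c, i) :: b).length = (a ++ b).length + 1 := by
    intro c; simp; ring
  rw [e1, l1] at a1
  rw [e2, l1] at b1
  rw [l1] at a0 b0
  have t0 : moment 0 (T 2 - T (-2) : ℤ[T;T⁻¹]) = 0 := by
    rw [moment_sub, m0_T, m0_T]; norm_num
  have t1 : moment 1 (T 2 - T (-2) : ℤ[T;T⁻¹]) = 4 := by
    have g1 : (T 2 : ℤ[T;T⁻¹]) = C 1 * T 2 := by rw [map_one, one_mul]
    have g2 : (T (-2) : ℤ[T;T⁻¹]) = C 1 * T (-2) := by rw [map_one, one_mul]
    rw [moment_sub, g1, g2, moment_term, moment_term]; norm_num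
  rw [moment_sub, T_mul1, T_mul1, mul1, t0, t1, zero_mul, add_zero, a0, a1, b0, b1, c0,
    pow_succ] at hs
  have hε : ((-1 : ℤ) ^ (a ++ b).length) * (-1) ^ (a ++ b).length = 1 := by
    rw [← mul_pow]; norm_num
  rw [ev1_moment]
  set ε : ℤ := (-1) ^ (a ++ b).length
  set M := moment 0 (ff O (a ++ b))
  have h9 : 4 * (ε * ε) * M = -8 * (ε * ε) := by linear_combination (-ε) * hs
  rw [hε] at h9
  linarith

end Pool.Agent.H970.TF
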