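import Pool.Agent.H970_TF.Comp3

/-!
# The constant of the second differences is negative
-/

set_option autoImplicit false

namespace Pool.Agent.H970.TF

open Finset LaurentPolynomial Pool.Agent.H891R2.Jones Pool.Agent.W639.RB Pool.Agent.Y463.SK
open Pool.Agent.H832R3.VJ

variable {m : ℕ}

theorem dels_split (w : List (Bool × ℕ)) : ∀ p ∈ dels w, ∃ (a b : List (Bool × ℕ)) (x : Bool × ℕ),
    w = a ++ x :: b ∧ p.2 = a ++ b := by
  induction w with
  | nil => intro p hp; simp [dels] at hp
  | cons x w ih =>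
    intro p hp
    rw [dels, List.mem_cons, List.mem_map] at hp
    rcases hp with rfl | ⟨q, hq, rfl⟩
    · exact ⟨[], w, x, rfl, rfl⟩
    · obtain ⟨a, b, y, h1, h2⟩ := ih q hq
      exact ⟨x :: a, b, y, by rw [h1]; rfl, by rw [h2]; rfl⟩

/-- the sum of the exponents of the crossings of the strands which start at the places `a`, `b` -/
def crossN (m : ℕ) : List (Bool × ℕ) → Fin m → Fin m → ℤ
  | [], _, _ => 0
  | x :: w, a, b => (if a ≠ b ∧ sF m x.2 = Equiv.swap a b then sgL x else 0) +
      crossN m w (sF m x.2 a) (sF m x.2 b)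

/-- the contribution of the deletions with a given permutation -/
def Lc (m : ℕ) (w : List (Bool × ℕ)) (τ : Equiv.Perm (Fin m)) : ℤ :=
  ((dels w).map (fun p => if prm m p.2 = τ then p.1 else 0)).sum

theorem sF_conj (i : ℕ) (a b : Fin m) :
    sF m i * Equiv.swap a b = Equiv.swap (sF m i a) (sF m i b) * sF m i :=
  Equiv.mul_swap_eq_swap_mul _ _ _

theorem Lc_cross (w : List (Bool × ℕ)) : ∀ a b : Fin m, a ≠ b →
    Lc m w (prm m w * Equiv.swap a b) = crossN m w a b := by
  induction w with
  | nil => intro a b _; simp [Lc, dels, crossN]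
  | cons x w ih =>
    intro a b hab
    have h1 : Lc m (x :: w) (prm m (x :: w) * Equiv.swap a b) =
        (if prm m w = prm m (x :: w) * Equiv.swap a b then sgL x else 0) +
        ((dels w).map (fun p => if prm m (x :: p.2) = prm m (x :: w) * Equiv.swap a b
          then p.1 else 0)).sum := by
      unfold Lc
      rw [dels, List.map_cons, List.sum_cons, List.map_map]
      rfl
    have h2 : (prm m w = prm m (x :: w) * Equiv.swap a b) ↔ (a ≠ b ∧ sF m x.2 = Equiv.swap a b) := by
      rw [prm, mul_assoc]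
      constructor
      · intro h
        refine ⟨hab, ?_⟩
        have h3 : sF m x.2 * Equiv.swap a b = 1 := by
          have := mul_left_cancel (a := prm m w) (b := 1) (c := sF m x.2 * Equiv.swap a b)
            (by rw [mul_one]; exact h)
          exact this.symm
        have h4 := congrArg (fun z => z * Equiv.swap a b) h3
        simp only [mul_assoc, Equiv.swap_mul_self, mul_one, one_mul] at h4
        exact h4
      · rintro ⟨_, h⟩
        rw [h, Equiv.swap_mul_self, mul_one]
    have hsab : sF m x.2 a ≠ sF m x.2 b := fun h => hab ((sF m x.2).injective h)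
    have h3 : ∀ p : ℤ × List (Bool × ℕ), (prm m (x :: p.2) = prm m (x :: w) * Equiv.swap a b) ↔
        (prm m p.2 = prm m w * Equiv.swap (sF m x.2 a) (sF m x.2 b)) := by
      intro p
      rw [prm, prm, mul_assoc (prm m w), sF_conj, ← mul_assoc]
      constructor
      · exact fun h => mul_right_cancel h
      · intro h; rw [h]
    rw [h1, crossN, ← ih _ _ hsab, Lc]
    congr 1
    · simp only [h2]
    · congr 1
      apply List.map_congr_left
      intro p _
      simp only [h3]

theorem dels_prm (w : List (Bool × ℕ)) (hw : ∀ x ∈ w, x.2 + 1 < m) : ∀ p ∈ dels w,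
    ∃ a b : Fin m, a ≠ b ∧ prm m p.2 = prm m w * Equiv.swap a b := by
  induction w with
  | nil => intro p hp; simp [dels] at hp
  | cons x w ih =>
    intro p hp
    rw [dels, List.mem_cons, List.mem_map] at hp
    rcases hp with rfl | ⟨q, hq, rfl⟩
    · have hx := hw x List.mem_cons_self
      refine ⟨⟨x.2, by omega⟩, ⟨x.2 + 1, hx⟩, ?_, ?_⟩
      · intro h
        have := congrArg Fin.val h
        simp at this
      · have h1 : sF m x.2 = Equiv.swap ⟨x.2, by omega⟩ ⟨x.2 + 1, hx⟩ := by
          unfold sF; rw [dif_pos hx]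
        rw [prm, ← h1, mul_assoc, sF_sq, mul_one]
    · obtain ⟨a, b, hab, h⟩ := ih (fun y hy => hw y (List.mem_cons_of_mem _ hy)) q hq
      refine ⟨sF m x.2 a, sF m x.2 b, fun h' => hab ((sF m x.2).injective h'), ?_⟩
      show prm m (x :: q.2) = _
      rw [prm, prm, h, mul_assoc, mul_assoc]
      congr 1
      have h1 : sF m x.2 (sF m x.2 a) = a := by
        rw [← Equiv.Perm.mul_apply, sF_sq]; rfl
      have h2 : sF m x.2 (sF m x.2 b) = b := by
        rw [← Equiv.Perm.mul_apply, sF_sq]; rfl
      rw [sF_conj, h1, h2]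

theorem Lc_sum (w : List (Bool × ℕ)) (F : Equiv.Perm (Fin m) → ℤ) :
    ((dels w).map (fun p => p.1 * F (prm m p.2))).sum = ∑ τ, Lc m w τ * F τ := by
  unfold Lc
  induction dels w with
  | nil => simp
  | cons p L ih =>
    rw [List.map_cons, List.sum_cons, ih]
    have h1 : ∀ τ : Equiv.Perm (Fin m), ((p :: L).map (fun p => if prm m p.2 = τ then p.1 else 0)).sum
        * F τ = (if prm m p.2 = τ then p.1 * F τ else 0) +
          (L.map (fun p => if prm m p.2 = τ then p.1 else 0)).sum * F τ := by
      intro τ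
      rw [List.map_cons, List.sum_cons, add_mul]
      congr 1
      split_ifs <;> simp
    simp only [h1]
    rw [Finset.sum_add_distrib, Finset.sum_ite_eq]
    simp

theorem swap_braid {α : Type*} [DecidableEq α] {a b c : α} (hab : a ≠ b) (hac : a ≠ c)
    (hbc : b ≠ c) : Equiv.swap a b * Equiv.swap b c * Equiv.swap a b =
      Equiv.swap b c * Equiv.swap a b * Equiv.swap b c := by
  have h1 := Equiv.swap_mul_swap_mul_swap (x := a) (y := b) (z := c) hab hac
  have h2 := Equiv.swap_mul_swap_mul_swap (x := c) (y := b) (z := a) hbc.symm hac.symm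
  rw [h1, Equiv.swap_comm a b, Equiv.swap_comm b c, h2, Equiv.swap_comm a c]

theorem prm_one_of_permL {w : List (Bool × ℕ)} (hw : ∀ x ∈ w, x.2 + 1 < m) (h : permL w = 1) :
    prm m w = 1 := by
  have hc : IsCox m (fun i => MulOpposite.op (sF m i)) := by
    refine ⟨?_, ?_, ?_⟩
    · intro i _
      rw [← MulOpposite.op_mul, sF_sq]; rfl
    · intro i hi
      rw [← MulOpposite.op_mul, ← MulOpposite.op_mul, ← MulOpposite.op_mul, ← MulOpposite.op_mul]
      congr 1
      have e1 : sF m i = Equiv.swap ⟨i, by omega⟩ ⟨i+1, by omega⟩ := by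
        unfold sF; rw [dif_pos (by omega)]
      have e2 : sF m (i+1) = Equiv.swap ⟨i+1, by omega⟩ ⟨i+2, by omega⟩ := by
        unfold sF; rw [dif_pos (by omega)]
      have n1 : (⟨i, by omega⟩ : Fin m) ≠ ⟨i+1, by omega⟩ := by simp
      have n2 : (⟨i, by omega⟩ : Fin m) ≠ ⟨i+2, by omega⟩ := by simp
      have n3 : (⟨i+1, by omega⟩ : Fin m) ≠ ⟨i+2, by omega⟩ := by simp
      rw [e1, e2, ← mul_assoc, ← mul_assoc]
      exact swap_braid n1 n2 n3
    · intro i j hj hij
      rw [← MulOpposite.op_mul, ← MulOpposite.op_mul]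
      congr 1
      have e1 : sF m i = Equiv.swap ⟨i, by omega⟩ ⟨i+1, by omega⟩ := by
        unfold sF; rw [dif_pos (by omega)]
      have e2 : sF m j = Equiv.swap ⟨j, by omega⟩ ⟨j+1, by omega⟩ := by
        unfold sF; rw [dif_pos (by omega)]
      have n1 : (⟨i, by omega⟩ : Fin m) ≠ ⟨j, by omega⟩ := by simp; omega
      have n2 : (⟨i, by omega⟩ : Fin m) ≠ ⟨j+1, by omega⟩ := by simp; omega
      have n3 : (⟨i+1, by omega⟩ : Fin m) ≠ ⟨j, by omega⟩ := by simp; omega
      have n4 : (⟨i+1, by omega⟩ : Fin m) ≠ ⟨j+1, by omega⟩ := by simp; omega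
      rw [e1, e2, Equiv.mul_swap_eq_swap_mul, Equiv.swap_apply_of_ne_of_ne n1 n2,
        Equiv.swap_apply_of_ne_of_ne n3 n4]
  have h1 := cox_word hc (w.map Prod.snd) (by
    intro i hi
    obtain ⟨x, hx, rfl⟩ := List.mem_map.1 hi
    exact hw x hx) (by rw [List.map_map]; exact h)
  have h2 : ∀ w : List (Bool × ℕ), ((w.map Prod.snd).map (fun i => MulOpposite.op (sF m i))).prod =
      MulOpposite.op (prm m w) := by
    intro w
    induction w with
    | nil => rfl
    | cons x w ih =>
      rw [List.map_cons, List.map_cons, List.prod_cons, ih, prm, MulOpposite.op_mul]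
  rw [h2] at h1
  exact MulOpposite.op_injective h1

end Pool.Agent.H970.TF
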