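import Pool.Agent.W639.RB.Defs

/-!
# Crossing numbers of the strands of a braid word
-/

set_option autoImplicit false

namespace Pool.Agent.H970.TF

open Pool.Agent.W639.RB

/-- For a braid word `w` (the first letter is at the bottom) and the strands which start at the bottom
at the places `a ≠ b`: the sum of the exponents of the letters of `w` in which these two strands cross.
If the braid is pure, this is twice the linking number of the two strands. -/
def cross {m : ℕ} : List (Letter m) → Fin m → Fin m → ℤ
  | [], _, _ => 0
  | x :: w, a, b =>
    (if a ≠ b ∧ Equiv.swap (⟨x.2, by omega⟩ : Fin m) ⟨x.2 + 1, by omega⟩ a = b then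
      (if x.1 then 1 else -1) else 0) +
    cross w (Equiv.swap (⟨x.2, by omega⟩ : Fin m) ⟨x.2 + 1, by omega⟩ a)
      (Equiv.swap (⟨x.2, by omega⟩ : Fin m) ⟨x.2 + 1, by omega⟩ b)

end Pool.Agent.H970.TF
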