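import Pool.Agent.H970_TF.Main
import Pool.Agent.H970_TF.Defs

/-!
# Powers of braids in a box with parallel strands
-/

set_option autoImplicit false

namespace Pool.Agent.H970.TF

open Finset LaurentPolynomial Pool.Agent.H891R2.Jones Pool.Agent.W639.RB Pool.Agent.Y463.SK
open Pool.Agent.H832R3.VJ
open Pool.Agent.Y463.BS (IsKnot knot_moments)

variable {m : ℕ}

theorem crossN_eq (w : List (Letter m)) : ∀ a b : Fin m, crossN m (toN w) a b = cross w a b := by
  induction w with
  | nil => intro a b; rfl
  | cons x w ih =>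
    intro a b
    have hx : (x.2 : ℕ) + 1 < m := by have := x.2.2; omega
    have h1 : toN (x :: w) = (x.1, (x.2 : ℕ)) :: toN w := rfl
    have h2 : sF m (x.2 : ℕ) = Equiv.swap (⟨x.2, by omega⟩ : Fin m) ⟨x.2 + 1, by omega⟩ := by
      unfold sF; rw [dif_pos hx]
    rw [h1, crossN, cross, ih]
    simp only [h2]
    congr 1
    set p : Fin m := ⟨x.2, by omega⟩
    set q : Fin m := ⟨x.2 + 1, by omega⟩
    have h3 : (a ≠ b ∧ Equiv.swap p q = Equiv.swap a b) ↔ (a ≠ b ∧ Equiv.swap p q a = b) := by
      constructor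
      · rintro ⟨h, h'⟩
        exact ⟨h, by rw [h', Equiv.swap_apply_left]⟩
      · rintro ⟨h, h'⟩
        refine ⟨h, ?_⟩
        by_cases ha : a = p
        · rw [ha, Equiv.swap_apply_left] at h'
          rw [ha, h']
        · by_cases ha' : a = q
          · rw [ha', Equiv.swap_apply_right] at h'
            rw [ha', ← h', Equiv.swap_comm]
          · rw [Equiv.swap_apply_of_ne_of_ne ha ha'] at h'
            exact absurd h' h
    unfold sgL
    simp only [h3]

theorem encard_le_of_finset {α : Type*} (s : Set α) (k : ℕ)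
    (h : ∀ Z : Finset α, (∀ z ∈ Z, z ∈ s) → Z.card ≤ k) : s.encard ≤ k := by
  by_contra hcon
  push Not at hcon
  have h1 : ((k + 1 : ℕ) : ℕ∞) ≤ s.encard := by
    have := Order.add_one_le_of_lt hcon
    push_cast
    exact this
  obtain ⟨t, ht, ht3⟩ := Set.exists_subset_encard_eq h1
  have hfin : t.Finite := Set.finite_of_encard_eq_coe ht3
  have h2 := h hfin.toFinset (fun z hz => ht (hfin.mem_toFinset.1 hz))
  have h3 : t.encard = hfin.toFinset.card := hfin.encard_eq_coe_toFinset_card
  rw [ht3] at h3
  have h4 : k + 1 = hfin.toFinset.card := by exact_mod_cast h3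
  omega

/-- the general version -/
theorem at_most_general (hm : 0 < m) (O : Outer m) (hO : ∀ j, O.up j = true)
    (hG : GoodV O)
    (w v : List (Bool × ℕ)) (hw : ∀ y ∈ w, y.2 + 1 < m) (hv : ∀ y ∈ v, y.2 + 1 < m)
    (r : ℕ) (hr : 0 < r) (hp : permL (powL w r) = 1)
    (hpos : ∀ a b : Fin m, a ≠ b → 0 ≤ crossN m (powL w r) a b)
    (hne : ∃ a b : Fin m, a ≠ b ∧ crossN m (powL w r) a b ≠ 0) (F : ℤ[T;T⁻¹]) (hF : ev1 F = 1) :
    {n : ℤ | ff O (powL w n ++ v) = F}.encard ≤ 2 * r := by
  have hr2 : (2 * (r : ℕ∞)) = ((2 * r : ℕ) : ℕ∞) := by push_cast; rfl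
  rw [hr2]
  apply encard_le_of_finset
  intro Z hZ
  have hwr := powL_lt hw r
  have hr' : (r : ℤ) ≠ 0 := by omega
  have hmaps : ∀ z ∈ Z, z % (r : ℤ) ∈ (range r).image (fun s : ℕ => (s : ℤ)) := by
    intro z _
    have h1 := Int.emod_nonneg z hr'
    have h2 := Int.emod_lt_of_pos z (by omega : (0 : ℤ) < r)
    rw [Finset.mem_image]
    exact ⟨(z % (r : ℤ)).toNat, by rw [Finset.mem_range]; omega, by omega⟩
  rw [Finset.card_eq_sum_card_fiberwise hmaps]
  have hcard : ((range r).image (fun s : ℕ => (s : ℤ))).card = r := by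
    rw [Finset.card_image_of_injective _ Nat.cast_injective, Finset.card_range]
  have hfib : ∀ s ∈ (range r).image (fun s : ℕ => (s : ℤ)),
      (Z.filter (fun z => z % (r : ℤ) = s)).card ≤ 2 := by
    intro s _
    have hsv : ∀ x ∈ powL w s ++ v, x.2 + 1 < m := by
      intro x hx
      rcases List.mem_append.1 hx with h | h
      · exact powL_lt hw s x h
      · exact hv x h
    have h1 : ∀ q : ℤ, ff O (powL w (r * q + s) ++ v) = ff O (powL (powL w r) q ++ (powL w s ++ v)) := by
      intro q
      apply ff_congr hm O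
      · intro x hx
        rcases List.mem_append.1 hx with h | h
        · exact powL_lt hw _ x h
        · exact hv x h
      · intro x hx
        rcases List.mem_append.1 hx with h | h
        · exact powL_lt hwr _ x h
        · exact hsv x h
      · rw [← List.append_assoc]
        exact Eqv.append (powL_mul hw r s q) (Eqv.refl v)
    have h2 := at_most_two hm O hO hG (powL w r) (powL w s ++ v) hwr hsv hp hpos hne F hF
    have h3 : (Z.filter (fun z => z % (r : ℤ) = s)).card =
        ((Z.filter (fun z => z % (r : ℤ) = s)).image (fun z => z / (r : ℤ))).card := by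
      rw [Finset.card_image_of_injOn]
      intro x hx y hy hxy
      simp only [Finset.coe_filter, Set.mem_setOf_eq] at hx hy
      simp only at hxy
      have e1 := Int.emod_add_mul_ediv x r
      have e2 := Int.emod_add_mul_ediv y r
      rw [← e1, ← e2, hx.2, hy.2, hxy]
    rw [h3]
    have h4 : (((Z.filter (fun z => z % (r : ℤ) = s)).image (fun z => z / (r : ℤ)) : Finset ℤ) : Set ℤ) ⊆
        {n : ℤ | ff O (powL (powL w r) n ++ (powL w s ++ v)) = F} := by
      intro q hq
      rw [Finset.mem_coe, Finset.mem_image] at hq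
      obtain ⟨z, hz, rfl⟩ := hq
      rw [Finset.mem_filter] at hz
      simp only [Set.mem_setOf_eq]
      rw [← h1]
      have e1 := Int.emod_add_mul_ediv z r
      have e2 : (r : ℤ) * (z / r) + s = z := by rw [← hz.2]; linarith
      rw [e2]
      exact hZ z hz.1
    have h5 := (Set.encard_le_encard h4).trans h2
    rw [Set.encard_coe_eq_coe_finsetCard] at h5
    exact_mod_cast h5
  calc _ ≤ ∑ s ∈ (range r).image (fun s : ℕ => (s : ℤ)), 2 := Finset.sum_le_sum hfib
    _ = 2 * r := by rw [Finset.sum_const, hcard, smul_eq_mul, mul_comm]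

end Pool.Agent.H970.TF
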