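import Pool.Agent.Y463.SK.Gen
import Pool.Agent.H970_TF.Alg2

/-!
# Values at `A = 1` of the functional of an outside
-/

set_option autoImplicit false

namespace Pool.Agent.H970.TF

open Finset LaurentPolynomial Pool.Agent.H891R2.Jones Pool.Agent.W639.RB Pool.Agent.Y463.SK

/-- the value at `A = 1` -/
noncomputable def ev1 : ℤ[T;T⁻¹] →+* ℤ := LaurentPolynomial.eval₂ (RingHom.id ℤ) (1 : ℤˣ)

theorem ev1_T (n : ℤ) : ev1 (T n) = 1 := by
  unfold ev1
  rw [LaurentPolynomial.eval₂_T]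
  simp

theorem ev1_r : ev1 (T 1 - 1) = 0 := by rw [map_sub, ev1_T, map_one, sub_self]

theorem T_first (n : ℤ) : ∃ c : ℤ[T;T⁻¹], T n = 1 + (n : ℤ[T;T⁻¹]) * (T 1 - 1) +
    ((T 1 - 1) * (T 1 - 1)) * c := by
  have h0 : (T 1 * T (-1) : ℤ[T;T⁻¹]) = 1 := by rw [← T_add, add_neg_cancel, T_zero]
  have h1 : (T (-1) : ℤ[T;T⁻¹]) = 1 - (T 1 - 1) + ((T 1 - 1) * (T 1 - 1)) * T (-1) := by
    linear_combination (2 - T 1) * h0
  induction n using Int.induction_on with
  | zero => exact ⟨0, by rw [T_zero]; push_cast; ring⟩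
  | succ n ih =>
    obtain ⟨c, hc⟩ := ih
    refine ⟨((n : ℤ) : ℤ[T;T⁻¹]) + c * T 1, ?_⟩
    rw [T_add, hc]
    push_cast
    ring
  | pred n ih =>
    obtain ⟨c, hc⟩ := ih
    refine ⟨-((-(n : ℤ) : ℤ) : ℤ[T;T⁻¹]) + c * (1 - (T 1 - 1)) + T (-1) * (T (-n : ℤ)), ?_⟩
    have h2 : (T (-(n : ℤ) - 1) : ℤ[T;T⁻¹]) = T (-n : ℤ) * T (-1) := by rw [← T_add]; rfl
    have h3 : (T (-(n : ℤ) - 1) : ℤ[T;T⁻¹]) = T (-n : ℤ) * (1 - (T 1 - 1)) +
        ((T 1 - 1) * (T 1 - 1)) * (T (-1) * T (-n : ℤ)) := by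
      rw [h2]
      linear_combination (T (-n : ℤ)) * h1
    rw [h3, mul_add]
    nth_rw 1 [hc]
    push_cast
    ring

variable {m : ℕ}

/-- the constant of the outside with the word `v` -/
noncomputable def Kn (O : Outer m) (v : List (Bool × ℕ)) (N : {N : ℕ // 3 ≤ N}) : ℂ :=
  (if Even (owr O + expo v) then (1 : ℂ) else -1) * (Ar N.1) ^ (-3 * (owr O + expo v))

/-- `x` has the value `c` at `A = 1` -/
def HV (O : Outer m) (v : List (Bool × ℕ)) (x : BB m) (c : ℤ) : Prop :=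
  ∃ P : ℤ[T;T⁻¹], ev1 P = c ∧ ∀ N : {N : ℕ // 3 ≤ N}, (N.1 : ℂ) * ev N.1 N.2 P = Kn O v N * Fn O N v x

theorem val_uniq {O : Outer m} {v : List (Bool × ℕ)} {x : BB m} {P Q : ℤ[T;T⁻¹]}
    (hP : ∀ N : {N : ℕ // 3 ≤ N}, (N.1 : ℂ) * ev N.1 N.2 P = Kn O v N * Fn O N v x)
    (hQ : ∀ N : {N : ℕ // 3 ≤ N}, (N.1 : ℂ) * ev N.1 N.2 Q = Kn O v N * Fn O N v x) : P = Q := by
  rw [← sub_eq_zero]
  apply eq_zero_of_ev
  intro N hN
  have hNC : (N : ℂ) ≠ 0 := by
    rw [Nat.cast_ne_zero]; omega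
  have h := (hP ⟨N, hN⟩).trans (hQ ⟨N, hN⟩).symm
  simp only at h
  rw [map_sub, mul_left_cancel₀ hNC h, sub_self]

theorem HV.uniq {O : Outer m} {v : List (Bool × ℕ)} {x : BB m} {c c' : ℤ} (h : HV O v x c)
    (h' : HV O v x c') : c = c' := by
  obtain ⟨P, rfl, hP⟩ := h
  obtain ⟨Q, rfl, hQ⟩ := h'
  rw [val_uniq hP hQ]

theorem HV.add {O : Outer m} {v : List (Bool × ℕ)} {x x' : BB m} {c c' : ℤ} (h : HV O v x c)
    (h' : HV O v x' c') : HV O v (x + x') (c + c') := by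
  obtain ⟨P, rfl, hP⟩ := h
  obtain ⟨Q, rfl, hQ⟩ := h'
  refine ⟨P + Q, map_add _ _ _, fun N => ?_⟩
  rw [map_add, mul_add, hP, hQ, Fn_add, mul_add]

theorem HV.smul {O : Outer m} {v : List (Bool × ℕ)} {x : BB m} {c : ℤ} (r : ℤ[T;T⁻¹])
    (h : HV O v x c) : HV O v (r • x) (ev1 r * c) := by
  obtain ⟨P, rfl, hP⟩ := h
  refine ⟨r * P, map_mul _ _ _, fun N => ?_⟩
  rw [map_mul, Fn_smul, mul_left_comm, hP]
  ring

theorem HV.zsmul {O : Outer m} {v : List (Bool × ℕ)} {x : BB m} {c : ℤ} (k : ℤ)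
    (h : HV O v x c) : HV O v (k • x) (k * c) := by
  have h1 := h.smul (k : ℤ[T;T⁻¹])
  rwa [map_intCast, Int.cast_id, Int.cast_smul_eq_zsmul] at h1

theorem HV.zero (O : Outer m) (v : List (Bool × ℕ)) : HV O v 0 0 := by
  refine ⟨0, map_zero _, fun N => ?_⟩
  rw [map_zero, Fn_zero, mul_zero, mul_zero]

theorem HV.listSum {α : Type*} {O : Outer m} {v : List (Bool × ℕ)} (L : List α) (f : α → BB m)
    (g : α → ℤ) (h : ∀ p ∈ L, HV O v (f p) (g p)) : HV O v ((L.map f).sum) ((L.map g).sum) := by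
  induction L with
  | nil => exact HV.zero O v
  | cons p L ih =>
    rw [List.map_cons, List.sum_cons, List.map_cons, List.sum_cons]
    exact (h p List.mem_cons_self).add (ih fun q hq => h q (List.mem_cons_of_mem _ hq))

theorem cost_up (w : List (Bool × ℕ)) : ∀ U : ℕ → ℤ, (∀ j < m, U j = 1) →
    (∀ x ∈ w, x.2 + 1 < m) → costS w U = expo w := by
  induction w with
  | nil => intro U _ _; simp [costS, expo]
  | cons x w ih =>
    intro U hU hw
    have hx := hw x List.mem_cons_self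
    rw [costS, ih (U ∘ Equiv.swap x.2 (x.2+1)) (by
      intro j hj
      rw [Function.comp_apply]
      by_cases h1 : j = x.2
      · rw [h1, Equiv.swap_apply_left]; exact hU _ hx
      · by_cases h2 : j = x.2 + 1
        · rw [h2, Equiv.swap_apply_right]; exact hU _ (by omega)
        · rw [Equiv.swap_apply_of_ne_of_ne h1 h2]; exact hU j hj)
      (fun y hy => hw y (List.mem_cons_of_mem _ hy)), hU _ (by omega), hU _ hx]
    simp [expo]

theorem expo_len (w : List (Bool × ℕ)) : Even (expo w + w.length) := by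
  induction w with
  | nil => simp [expo]
  | cons x w ih =>
    have : expo (x :: w) = (if x.1 then 1 else -1) + expo w := by simp [expo]
    rw [this, List.length_cons]
    obtain ⟨k, hk⟩ := ih
    split_ifs
    · exact ⟨k + 1, by push_cast; linarith⟩
    · exact ⟨k, by push_cast; linarith⟩

/-- the value of `ff` in terms of the functional -/
theorem ev_ff_up (hm : 0 < m) (O : Outer m) (hO : ∀ j, O.up j = true) (x v : List (Bool × ℕ))
    (hx : ∀ y ∈ x, y.2 + 1 < m) (hv : ∀ y ∈ v, y.2 + 1 < m) (N : {N : ℕ // 3 ≤ N}) :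
    (N.1 : ℂ) * ev N.1 N.2 (((-1 : ℤ) ^ x.length : ℤ[T;T⁻¹]) * T (3 * expo x) * ff O (x ++ v)) =
      Kn O v N * Fn O N v (bb m x) := by
  have hA := Ar_ne N.1 N.2
  have hxv : ∀ y ∈ x ++ v, y.2 + 1 < m := by
    intro y hy
    rcases List.mem_append.1 hy with h | h
    · exact hx y h
    · exact hv y h
  have h1 := ev_ff hm O (x ++ v) hxv N
  rw [cost_up (m := m) _ _ (fun j hj => pat_up hO j hj) hxv, expo_append, rho_append] at h1
  have h5 : Fn O N v (bb m x) = Zg (Ar N.1) N.1 O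
      ((rho (Ar N.1) m N.1 x * rho (Ar N.1) m N.1 v) (fun x y => ind (x = y))) := by
    unfold Fn
    rw [bb_apply]
    rfl
  rw [h5, map_mul, map_mul, mul_left_comm, h1, ev_T, Kn]
  have h4 : (Ar N.1) ^ (-3 * (owr O + (expo x + expo v))) =
      (Ar N.1) ^ (-(3 * expo x)) * (Ar N.1) ^ (-3 * (owr O + expo v)) := by
    rw [← zpow_add₀ hA]
    congr 1
    ring
  have h6 : (Ar N.1) ^ (3 * expo x) * (Ar N.1) ^ (-(3 * expo x)) = 1 := by
    rw [← zpow_add₀ hA, add_neg_cancel, zpow_zero]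
  have h7 : ev N.1 N.2 ((-1 : ℤ) ^ x.length : ℤ[T;T⁻¹]) *
      (if Even (owr O + (expo x + expo v)) then (1 : ℂ) else -1) =
        if Even (owr O + expo v) then (1 : ℂ) else -1 := by
    have h8 : ev N.1 N.2 (((-1 : ℤ) : ℤ[T;T⁻¹]) ^ x.length) = (-1 : ℂ) ^ x.length := by
      rw [map_pow]
      simp
    have h9 : Even (owr O + (expo x + expo v)) ↔ (Even (owr O + expo v) ↔ Even x.length) := by
      have e1 : owr O + (expo x + expo v) = (owr O + expo v) + (expo x + x.length) - x.length := by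
        ring
      rw [e1, Int.even_sub, Int.even_add]
      simp only [expo_len, iff_true, Int.even_coe_nat]
    have h10 : ev N.1 N.2 ((-1 : ℤ) ^ x.length : ℤ[T;T⁻¹]) = (-1 : ℂ) ^ x.length := by
      rw [← h8]
    rw [h10]
    by_cases ha : Even (owr O + expo v) <;> by_cases hb : Even x.length
    · rw [hb.neg_one_pow, if_pos (h9.2 (by simp [ha, hb])), if_pos ha]; ring
    · rw [(Nat.not_even_iff_odd.1 hb).neg_one_pow, if_neg (fun h => hb ((h9.1 h).1 ha)), if_pos ha]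
      ring
    · rw [hb.neg_one_pow, if_neg (fun h => ha ((h9.1 h).2 hb)), if_neg ha]; ring
    · rw [(Nat.not_even_iff_odd.1 hb).neg_one_pow, if_pos (h9.2 (by simp [ha, hb])), if_neg ha]
      ring
  rw [h4]
  linear_combination ((Ar N.1) ^ (3 * expo x) * ((Ar N.1) ^ (-(3 * expo x)) *
    (Ar N.1) ^ (-3 * (owr O + expo v))) * Zg (Ar N.1) N.1 O
      ((rho (Ar N.1) m N.1 x * rho (Ar N.1) m N.1 v) (fun x y => ind (x = y)))) * h7 +
    ((if Even (owr O + expo v) then (1 : ℂ) else -1) * (Ar N.1) ^ (-3 * (owr O + expo v)) *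
      Zg (Ar N.1) N.1 O
      ((rho (Ar N.1) m N.1 x * rho (Ar N.1) m N.1 v) (fun x y => ind (x = y)))) * h6

/-- the value at `A = 1` of the normalised bracket -/
noncomputable def psi (O : Outer m) (v x : List (Bool × ℕ)) : ℤ := ev1 (ff O (x ++ v))

theorem HV_bb (hm : 0 < m) (O : Outer m) (hO : ∀ j, O.up j = true) (x v : List (Bool × ℕ))
    (hx : ∀ y ∈ x, y.2 + 1 < m) (hv : ∀ y ∈ v, y.2 + 1 < m) :
    HV O v (bb m x) ((-1) ^ x.length * psi O v x) := by
  refine ⟨_, ?_, fun N => ev_ff_up hm O hO x v hx hv N⟩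
  rw [map_mul, map_mul, ev1_T, mul_one, psi]
  simp

end Pool.Agent.H970.TF
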