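import Pool.Agent.H970_TF.Func

/-!
# The second differences
-/

set_option autoImplicit false

namespace Pool.Agent.H970.TF

open Finset LaurentPolynomial Pool.Agent.H891R2.Jones Pool.Agent.W639.RB Pool.Agent.Y463.SK

variable {m : ℕ}

/-- the subalgebra of the Temperley–Lieb generators -/
noncomputable abbrev S0 (m : ℕ) : Subalgebra ℤ[T;T⁻¹] (BB m) :=
  Algebra.adjoin ℤ[T;T⁻¹] (Set.range (EB m))

/-- the generators in the subalgebra -/
noncomputable def eS (m : ℕ) (i : ℕ) : S0 m := ⟨EB m i, Algebra.subset_adjoin ⟨i, rfl⟩⟩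

theorem isTLr_eS (m : ℕ) : IsTLr m (-(T 1)^2 - (T (-1))^2 : ℤ[T;T⁻¹]) (eS m) := by
  have h := isTLr_EB m
  refine ⟨?_, ?_, ?_, ?_⟩
  · intro i hi; exact Subtype.ext (h.sq i hi)
  · intro i hi; exact Subtype.ext (h.up i hi)
  · intro i hi; exact Subtype.ext (h.down i hi)
  · intro i j hj hij; exact Subtype.ext (h.far i j hj hij)

/-- the span of the words -/
noncomputable def MW (m : ℕ) : Submodule ℤ[T;T⁻¹] (BB m) :=
  Submodule.span ℤ[T;T⁻¹] {y | ∃ x : List (Bool × ℕ), (∀ z ∈ x, z.2 + 1 < m) ∧ y = bb m x}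

theorem bb_cons (x : Bool × ℕ) (w : List (Bool × ℕ)) :
    bb m (x :: w) = ltr (T 1 : ℤ[T;T⁻¹]) (T (-1)) (EB m) x * bb m w := by simp [bb, wd]

theorem EB_mul_mem (i : ℕ) (y : BB m) (hy : y ∈ MW m) : EB m i * y ∈ MW m := by
  by_cases hi : i + 1 < m
  · have h1 : EB m i * y = (T 1 : ℤ[T;T⁻¹]) • (ltr (T 1 : ℤ[T;T⁻¹]) (T (-1)) (EB m) (true, i) * y) -
        (T 1 * T 1 : ℤ[T;T⁻¹]) • y := by
      unfold ltr
      simp only [if_true]
      rw [add_mul, smul_add, smul_mul_assoc, smul_mul_assoc, one_mul, smul_smul, smul_smul,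
        T_mul_inv, one_smul]
      abel
    have h2 : ltr (T 1 : ℤ[T;T⁻¹]) (T (-1)) (EB m) (true, i) * y ∈ MW m := by
      refine Submodule.span_induction (p := fun y _ =>
        ltr (T 1 : ℤ[T;T⁻¹]) (T (-1)) (EB m) (true, i) * y ∈ MW m) ?_ ?_ ?_ ?_ hy
      · rintro _ ⟨x, hx, rfl⟩
        refine Submodule.subset_span ⟨(true, i) :: x, ?_, (bb_cons _ _).symm⟩
        intro z hz
        rcases List.mem_cons.1 hz with rfl | hz
        · exact hi
        · exact hx z hz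
      · rw [mul_zero]; exact Submodule.zero_mem _
      · intro a b _ _ ha hb
        rw [mul_add]; exact Submodule.add_mem _ ha hb
      · intro r a _ ha
        rw [mul_smul_comm]; exact Submodule.smul_mem _ _ ha
    rw [h1]
    exact Submodule.sub_mem _ (Submodule.smul_mem _ _ h2) (Submodule.smul_mem _ _ hy)
  · rw [EB_zero m i (by omega), zero_mul]
    exact Submodule.zero_mem _

theorem S0_le (x : BB m) (hx : x ∈ S0 m) : x ∈ MW m := by
  have h1 : x ∈ Submodule.span ℤ[T;T⁻¹] (Submonoid.closure (Set.range (EB m)) : Set (BB m)) := by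
    rw [← Algebra.adjoin_eq_span]
    exact hx
  refine Submodule.span_le.2 ?_ h1
  intro y hy
  induction hy using Submonoid.closure_induction_left with
  | one => exact Submodule.subset_span ⟨[], by simp, rfl⟩
  | mul_left x hx y _ hy =>
    obtain ⟨i, rfl⟩ := hx
    exact EB_mul_mem i y hy

theorem HV_exists (hm : 0 < m) (O : Outer m) (hO : ∀ j, O.up j = true) (v : List (Bool × ℕ))
    (hv : ∀ y ∈ v, y.2 + 1 < m) (x : S0 m) : ∃ c, HV O v (x : BB m) c := by
  refine Submodule.span_induction (p := fun y _ => ∃ c, HV O v y c) ?_ ?_ ?_ ?_ (S0_le _ x.2)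
  · rintro _ ⟨x, hx, rfl⟩
    exact ⟨_, HV_bb hm O hO x v hx hv⟩
  · exact ⟨0, HV.zero O v⟩
  · rintro a b _ _ ⟨c, hc⟩ ⟨c', hc'⟩
    exact ⟨_, hc.add hc'⟩
  · rintro r a _ ⟨c, hc⟩
    exact ⟨_, hc.smul r⟩

section generic
variable {R B : Type*} [CommRing R] [Ring B] [Algebra R B] {A A' : R} {e : ℕ → B}

theorem ltr_zero (hA : A * A' = 1) (x : Bool × ℕ) : ∃ z : B, ltr A A' e x =
    -(-(1 + e x.2)) + (A - 1) • z := by
  have h1 : A' = 1 - (A - 1) * A' := by linear_combination hA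
  obtain ⟨b, i⟩ := x
  cases b
  · refine ⟨-(A' • (1 : B)) + e i, ?_⟩
    unfold ltr
    simp only [Bool.false_eq_true, if_false]
    nth_rw 1 [h1]
    rw [smul_add, smul_neg, smul_smul, sub_smul, sub_smul A]
    simp only [one_smul]
    abel
  · refine ⟨(1 : B) - A' • e i, ?_⟩
    unfold ltr
    simp only [if_true]
    nth_rw 1 [h1]
    rw [smul_sub, smul_smul, sub_smul, sub_smul A]
    simp only [one_smul]
    abel

theorem wd_zero (hA : A * A' = 1) (w : List (Bool × ℕ)) : ∃ z : B, wd A A' e w =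
    (-1 : ℤ) ^ w.length • SW e w + (A - 1) • z := by
  induction w with
  | nil => exact ⟨0, by simp [wd, SW]⟩
  | cons x w ih =>
    obtain ⟨z, hz⟩ := ih
    obtain ⟨z', hz'⟩ := ltr_zero (e := e) hA x
    have h1 : wd A A' e (x :: w) = ltr A A' e x * wd A A' e w := by
      simp [wd]
    refine ⟨-(-(1 + e x.2)) * z + (-1 : ℤ) ^ w.length • (z' * SW e w) + (A - 1) • (z' * z), ?_⟩
    rw [h1, hz, hz', SW_cons, List.length_cons, pow_succ]
    set s := -(1 + e x.2)
    set r : R := A - 1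
    set S := SW e w
    have e1 : (-1 : ℤ) ^ w.length • r • (z' * S) = r • (-1 : ℤ) ^ w.length • (z' * S) :=
      smul_comm _ _ _
    simp only [add_mul, mul_add, mul_smul_comm, smul_mul_assoc, neg_mul, smul_add, smul_neg,
      mul_neg, mul_one, neg_smul, e1]
    abel

theorem SW_zero (hA : A * A' = 1) (w : List (Bool × ℕ)) : ∃ z : B, SW e w =
    (-1 : ℤ) ^ w.length • wd A A' e w + (A - 1) • z := by
  obtain ⟨z, hz⟩ := wd_zero (e := e) hA w
  refine ⟨-((-1 : ℤ) ^ w.length • z), ?_⟩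
  have h9 : (-1 : ℤ) ^ w.length * (-1 : ℤ) ^ w.length = 1 := by
    rw [← mul_pow]; norm_num
  rw [hz, smul_add, smul_smul, h9, one_smul, smul_neg, smul_comm (A - 1)]
  abel

end generic

theorem coe_wd (w : List (Bool × ℕ)) :
    ((wd (T 1 : ℤ[T;T⁻¹]) (T (-1)) (eS m) w : S0 m) : BB m) = bb m w :=
  map_wd (S0 m).val (eS m) w

/-- the value of a classical word is the value of the normalised bracket at `A = 1` -/
theorem HV_SW (hm : 0 < m) (O : Outer m) (hO : ∀ j, O.up j = true) (x v : List (Bool × ℕ))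
    (hx : ∀ y ∈ x, y.2 + 1 < m) (hv : ∀ y ∈ v, y.2 + 1 < m) :
    HV O v ((SW (eS m) x : S0 m) : BB m) (psi O v x) := by
  obtain ⟨z, hz⟩ := SW_zero (e := eS m) (A' := T (-1)) T_mul_inv x
  obtain ⟨c, hc⟩ := HV_exists hm O hO v hv z
  have h2 : ((SW (eS m) x : S0 m) : BB m) = (-1 : ℤ) ^ x.length • bb m x +
      (T 1 - 1 : ℤ[T;T⁻¹]) • (z : BB m) := by
    rw [hz, ← coe_wd]
    rfl
  have h3 := ((HV_bb hm O hO x v hx hv).zsmul ((-1) ^ x.length)).add (hc.smul (T 1 - 1))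
  rw [← h2, ev1_r, zero_mul, add_zero, ← mul_assoc, ← mul_pow] at h3
  simpa using h3

end Pool.Agent.H970.TF
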