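import Pool.Agent.H970_TF.Final
import Pool.Agent.H297.FT.Knotoid

/-!
# Diagrams of knotoids: the values at `A = 1`
-/

set_option autoImplicit false

namespace Pool.Agent.H970.TF

open Finset LaurentPolynomial Pool.Agent.H891R2.Jones Pool.Agent.W639.RB Pool.Agent.Y463.SK
open Pool.Agent.Y463.BS (E IsKnot Strand X E_nil lp_same lp_join card_strand mem_X W W1 W_eq Two al
  m_bracket v v_mem lp_mem count_starts pts sign_parity knot_moments Concl pair cor count_pts_cons
  count_pts_append count_X)
open Pool.Agent.H832R3.VJ
open Pool.Agent.H832R3.VJ.V7 (moment_term moment_C_mul)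
open Pool.Agent.H953R3.Q2 (m_sum m_one T_mul0 T_mul1 mul0 mul1)
open Pool.Agent.H832R3.TW (IsKnotoid)
open Pool.Agent.H297.FT (KGood KGood_push knotoid_iff)

variable {P : Type}

/-- a set with one more point -/
inductive Aug (P : Type) : Type
  | pt : P → Aug P
  | star : Aug P
deriving DecidableEq

/-- the two ends of an interval are joined -/
theorem ends_joined [DecidableEq P] (L : List (P × P)) (a b : P) (hT : Two (pts L ++ [a, b])) :
    E L a b := by
  set L' : List (Aug P × Aug P) := L.map (fun z => (Aug.pt z.1, Aug.pt z.2)) with hL'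
  have hinj : Function.Injective (Aug.pt : P → Aug P) := fun x y h => by injection h
  have hpts : pts L' = (pts L).map Aug.pt := by
    rw [hL']
    unfold pts
    rw [List.map_map, List.map_map, List.map_append, List.map_map, List.map_map]
    rfl
  have hcount : ∀ x : P, (pts L').count (Aug.pt x) = (pts L).count x := by
    intro x
    rw [hpts, List.count_map_of_injective _ _ hinj]
  have hcount0 : (pts L').count Aug.star = 0 := by
    rw [List.count_eq_zero, hpts]
    intro h
    obtain ⟨y, _, hy⟩ := List.mem_map.1 h
    cases hy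
  have hC : Concl L' (Aug.pt a) (Aug.pt b) Aug.star Aug.star := by
    refine pair _ L' rfl _ _ _ _ ?_
    intro x
    rcases x with x | _
    · have h1 := hT x
      rw [List.count_append] at h1 ⊢
      rw [hcount]
      simp only [List.count_cons, List.count_nil] at h1 ⊢
      simpa using h1
    · right
      rw [List.count_append, hcount0]
      simp [List.count_cons]
  have hnone : ∀ x y, E L' x y → (x = Aug.star ↔ y = Aug.star) := by
    intro x y h
    induction h with
    | rel x y hxy =>
      rw [hL'] at hxy
      obtain ⟨z, _, hz⟩ := List.mem_map.1 hxy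
      obtain ⟨rfl, rfl⟩ := Prod.mk.inj hz
      simp
    | refl x => rfl
    | symm x y _ ih => exact ih.symm
    | trans x y z _ _ ih ih' => exact ih.trans ih'
  have hE : E L' (Aug.pt a) (Aug.pt b) := by
    rcases hC with ⟨h, _, _⟩ | ⟨h, _, _⟩ | ⟨h, _, _⟩
    · exact h
    · exact absurd ((hnone _ _ h).2 rfl) (by simp)
    · exact absurd ((hnone _ _ h).2 rfl) (by simp)
  have h2 := Pool.Agent.Y463.BS.E.lift (M := L) (fun o : Aug P => match o with
    | Aug.pt x => x
    | Aug.star => a) (by
    intro p q hpq
    rw [hL'] at hpq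
    obtain ⟨z, hz, hz'⟩ := List.mem_map.1 hpq
    obtain ⟨rfl, rfl⟩ := Prod.mk.inj hz'
    exact E.of_mem hz) hE
  exact h2

theorem W_mem : ∀ (xs : List (Crossing P)) (A B : List (P × P)), (∀ u, u ∈ A ↔ u ∈ B) →
    W A xs = W B xs := by
  intro xs
  induction xs with
  | nil => intro A B h; exact v_mem h
  | cons x xs ih =>
    intro A B h
    rw [W, W, ih ((x.a, x.b) :: (x.c, x.d) :: A) ((x.a, x.b) :: (x.c, x.d) :: B)
      (fun u => by simp only [List.mem_cons, h]),
      ih ((x.b, x.c) :: (x.d, x.a) :: A) ((x.b, x.c) :: (x.d, x.a) :: B)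
      (fun u => by simp only [List.mem_cons, h])]

theorem W1_mem : ∀ (xs : List (Crossing P)) (A B : List (P × P)), (∀ u, u ∈ A ↔ u ∈ B) →
    W1 A xs = W1 B xs := by
  intro xs
  induction xs with
  | nil => intro A B _; rfl
  | cons x xs ih =>
    intro A B h
    have g1 : ∀ u, u ∈ ((x.a, x.b) :: (x.c, x.d) :: A) ↔ u ∈ ((x.a, x.b) :: (x.c, x.d) :: B) :=
      fun u => by simp only [List.mem_cons, h]
    have g2 : ∀ u, u ∈ ((x.b, x.c) :: (x.d, x.a) :: A) ↔ u ∈ ((x.b, x.c) :: (x.d, x.a) :: B) :=
      fun u => by simp only [List.mem_cons, h]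
    rw [W1, W1, ih _ _ g1, ih _ _ g2, W_mem xs _ _ g1, W_mem xs _ _ g2]

theorem W_add [DecidableEq P] (a b : P) : ∀ (xs : List (Crossing P)) (A : List (P × P)),
    Two (al A xs ++ [a, b]) → W ((a, b) :: A) xs = W A xs ∧ W1 ((a, b) :: A) xs = W1 A xs := by
  intro xs
  induction xs with
  | nil =>
    intro A h
    refine ⟨?_, rfl⟩
    have h1 : E A a b := ends_joined A a b (by simpa [al] using h)
    show v ((a, b) :: A) = v A
    unfold v
    rw [lp_same h1]
  | cons x xs ih =>
    intro A h
    have g1 : Two (al ((x.a, x.b) :: (x.c, x.d) :: A) xs ++ [a, b]) := h.congr fun p => by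
      simp only [al, List.flatMap_cons, List.count_append, count_pts_cons, cor, List.count_cons,
        List.count_nil]
      omega
    have g2 : Two (al ((x.b, x.c) :: (x.d, x.a) :: A) xs ++ [a, b]) := h.congr fun p => by
      simp only [al, List.flatMap_cons, List.count_append, count_pts_cons, cor, List.count_cons,
        List.count_nil]
      omega
    obtain ⟨i1, i2⟩ := ih _ g1
    obtain ⟨j1, j2⟩ := ih _ g2
    have m1 : ∀ u, u ∈ ((x.a, x.b) :: (x.c, x.d) :: (a, b) :: A) ↔
        u ∈ ((a, b) :: (x.a, x.b) :: (x.c, x.d) :: A) := fun u => by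
      simp only [List.mem_cons]; tauto
    have m2 : ∀ u, u ∈ ((x.b, x.c) :: (x.d, x.a) :: (a, b) :: A) ↔
        u ∈ ((a, b) :: (x.b, x.c) :: (x.d, x.a) :: A) := fun u => by
      simp only [List.mem_cons]; tauto
    constructor
    · rw [W, W, W_mem xs _ _ m1, W_mem xs _ _ m2, i1, j1]
    · rw [W1, W1, W_mem xs _ _ m1, W_mem xs _ _ m2, W1_mem xs _ _ m1, W1_mem xs _ _ m2, i1, j1,
        i2, j2]

/-- the closure of a knotoid diagram by a (virtual) arc from the head to the tail -/
def plus (D : Diagram P) (head tail : P) : Diagram P := ⟨(head, tail) :: D.arcs, D.crossings⟩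

theorem al_count [DecidableEq P] (D : Diagram P) (p : P) :
    (al D.arcs D.crossings).count p = D.starts.count p + D.ends.count p := by
  obtain ⟨g1, g2, g3⟩ := count_starts D.crossings p
  unfold Diagram.starts Diagram.ends
  simp only [al, pts, List.count_append]
  omega

theorem plus_closed [DecidableEq P] (D : Diagram P) (head tail : P)
    (h : ∀ p, D.starts.count p = (if p = head then 0 else 1) ∧
      D.ends.count p = (if p = tail then 0 else 1)) : (plus D head tail).IsClosed := by
  intro p
  obtain ⟨h1, h2⟩ := h p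
  have e1 : (plus D head tail).starts = head :: D.starts := rfl
  have e2 : (plus D head tail).ends = tail :: D.ends := rfl
  rw [e1, e2, List.count_cons, List.count_cons, h1, h2]
  constructor
  · by_cases hp : p = head
    · simp [hp]
    · simp [hp, Ne.symm hp]
  · by_cases hp : p = tail
    · simp [hp]
    · simp [hp, Ne.symm hp]

theorem plus_moments [Finite P] [DecidableEq P] [Nonempty P] (D : Diagram P) (head tail : P)
    (hT : Two (al D.arcs D.crossings ++ [head, tail])) :
    moment 0 (plus D head tail).fPoly = moment 0 D.fPoly ∧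
    moment 1 (plus D head tail).fPoly = moment 1 D.fPoly := by
  obtain ⟨a0, a1⟩ := m_bracket D
  obtain ⟨b0, b1⟩ := m_bracket (plus D head tail)
  obtain ⟨c0, c1⟩ := W_add head tail D.crossings D.arcs hT
  have e0 : moment 0 (plus D head tail).bracket = moment 0 D.bracket := by
    have : -2 * moment 0 (plus D head tail).bracket = -2 * moment 0 D.bracket := by
      rw [b0, a0]; exact c0
    linarith
  have e1 : moment 1 (plus D head tail).bracket = moment 1 D.bracket := by
    have : -2 * moment 1 (plus D head tail).bracket = -2 * moment 1 D.bracket := by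
      rw [b1, a1]; exact c1
    linarith
  have hw : (plus D head tail).writhe = D.writhe := rfl
  have hf : ∀ D' : Diagram P, D'.fPoly =
      C (if Even D'.writhe then (1 : ℤ) else -1) * (T (-3 * D'.writhe) * D'.bracket) := by
    intro D'
    unfold Diagram.fPoly
    split_ifs <;> simp
  rw [hf, hf D, hw, moment_C_mul, moment_C_mul, moment_C_mul, moment_C_mul, T_mul0, T_mul0, T_mul1,
    T_mul1, e0, e1]
  exact ⟨rfl, rfl⟩

theorem knotoid_two [DecidableEq P] (D : Diagram P) (head tail : P) (hne : tail ≠ head)
    (h : ∀ p, D.starts.count p = (if p = head then 0 else 1) ∧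
      D.ends.count p = (if p = tail then 0 else 1)) :
    Two (al D.arcs D.crossings ++ [head, tail]) := by
  intro p
  right
  obtain ⟨h1, h2⟩ := h p
  rw [List.count_append, al_count, h1, h2]
  by_cases hp : p = head
  · have : p ≠ tail := fun h => hne (h.symm.trans hp)
    simp [hp, hne, hne.symm]
  · by_cases hp' : p = tail
    · simp [hp', hne.symm, hne]
    · simp [hp, hp', Ne.symm hp, Ne.symm hp']

theorem lp_plus [DecidableEq P] (D : Diagram P) (head tail : P)
    (hT : Two (al D.arcs D.crossings ++ [head, tail])) :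
    Y463.BS.lp (X (plus D head tail).crossings ++ (plus D head tail).arcs) =
      Y463.BS.lp (X D.crossings ++ D.arcs) := by
  have h1 : E (X D.crossings ++ D.arcs) head tail := by
    apply ends_joined
    refine hT.congr fun p => ?_
    simp only [al, List.count_append, count_pts_append, count_X]
    omega
  rw [← lp_same h1]
  apply lp_mem
  intro z
  show z ∈ X D.crossings ++ ((head, tail) :: D.arcs) ↔ z ∈ (head, tail) :: (X D.crossings ++ D.arcs)
  simp only [List.mem_append, List.mem_cons]
  tauto

variable {m : ℕ}

theorem draw_knotoid (O : Outer m) (hO : ∀ j, O.up j = true)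
    (hc : IsKnotoid O.close) (w : List (Bool × ℕ)) (hw : ∀ x ∈ w, x.2 + 1 < m) :
    IsKnotoid (draw O w).close := by
  have h1 : (draw O w).up = O.up := by
    funext j
    rw [hO, (draw_up w O hw hO).1]
  rw [knotoid_iff, h1]
  rw [knotoid_iff] at hc
  have key : ∀ (w : List (Bool × ℕ)) (O : Outer m) (v : Fin m → Bool), KGood O v →
      KGood (draw O w) v := by
    intro w
    induction w with
    | nil => intro O v h; exact h
    | cons x w ih => intro O v h; exact ih _ v (KGood_push O v x.1 x.2 h)
  exact key w O O.up hc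

theorem good_knotoid (hm : 0 < m) (O : Outer m) (hO : ∀ j, O.up j = true)
    (hc : IsKnotoid O.close) : GoodV O := by
  have hk : ∀ w : List (Bool × ℕ), (∀ x ∈ w, x.2 + 1 < m) → IsKnotoid (draw O w).close :=
    fun w hw => draw_knotoid O hO hc w hw
  refine ⟨fun w hw => ?_, fun w hw h => ?_⟩
  · have : Nonempty (draw O w).P := ⟨(draw O w).lower ⟨0, hm⟩⟩
    obtain ⟨tail, head, hne, h1⟩ := hk w hw
    have hT := knotoid_two _ head tail hne h1
    have h2 := value_closed _ (plus_closed _ head tail h1)
    rw [lp_plus _ head tail hT, close_cyc _ (draw_up' O hO w hw), cyc_draw w O hw, one_mul,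
      ev1_moment, (plus_moments _ head tail hT).1] at h2
    rw [ev1_moment]
    exact h2
  · have : Nonempty (draw O w).P := ⟨(draw O w).lower ⟨0, hm⟩⟩
    obtain ⟨tail, head, hne, h1⟩ := hk w hw
    have hT := knotoid_two _ head tail hne h1
    have h2 := knot_moments (plus (draw O w).close head tail) ⟨plus_closed _ head tail h1, by
      rw [card_strand, lp_plus _ head tail hT, close_cyc _ (draw_up' O hO w hw), cyc_draw w O hw,
        one_mul, h]⟩
    rw [(plus_moments _ head tail hT).1, (plus_moments _ head tail hT).2] at h2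
    exact h2

end Pool.Agent.H970.TF
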