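import Pool.Agent.H970_TF.Knotoid

/-!
# Knotoid diagrams: powers of positive braids in a box with parallel strands

Diagrams (starting library `Pool.Agent.H891R2.Jones.Diagram`): `Diagram P` (oriented diagrams with marked
points `P`, planar or not; `Diagram.loops`, the number of components of a state, counts circles and
intervals), `Diagram.fPoly` (the normalised bracket `(-A^{-3})^{w(D)} ⟨D⟩`), `Outer m` (the part of an
oriented diagram outside a box through which `m` strands run; `O.up j`: the `j`-th strand is directed
upwards), `Outer.close` (fills the box with vertical strands).  `IsKnotoid D` (starting library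
`Pool.Agent.H832R3.TW.E`): the pieces of `D` form one oriented interval, running from a marked point `tail`
to a different marked point `head`, and (possibly) oriented closed curves.  `Pool.Agent.Y463.BS.Strand D p q`
(starting library): the marked points `p` and `q` are joined by a piece of strand of `D`; so
`Nat.card (Quot (Strand D))` is the number of components of `D`.

Braid words (starting library `Pool.Agent.W639.RB.Defs`, `Pool.Agent.Y463.SK.Defs`):
`Letter m = Bool × Fin (m - 1)` (the letters `σ_i^{±1}`), `dia O w` (the diagram with the braid word `w` in
the box of `O`), `powW w n` (the word `w^n`, `n ∈ ℤ`), `IsPure` (the permutation is trivial).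

New definition (`Pool.Agent.H970_TF.Defs`): `cross w a b`, the sum of the exponents of the letters of `w` in
which the strands of `w` starting at the places `a` and `b` cross; for a pure braid it is twice the linking
number of the two strands.

Proof (`Pool.Agent.H970_TF`): the second differences of `n ↦ f(w^n v)` are `(A - 1)² P_n`, where the value
`P_n(1) < 0` does not depend on `n`, if one of the diagrams has `f(1) = 1`; see
`MP_42db45_gt.TwistFamilies`.  The values and first derivatives at `A = 1` of the normalised brackets of a
knotoid diagram and of its closure by a (virtual) arc from the head to the tail are the same, because the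
two endpoints are joined in every state.
-/

set_option autoImplicit false

namespace Pool.Agent.H970.TF.KnotoidResult

open LaurentPolynomial Pool.Agent.H891R2.Jones Pool.Agent.W639.RB Pool.Agent.Y463.SK
  Pool.Agent.H970.TF
open Pool.Agent.H832R3.TW (IsKnotoid)
open Pool.Agent.Y463.BS (Strand)

/-- Let `O` be the outside of a box in a diagram of a knotoid (the endpoints are outside of the box), the
`m` strands in the box being parallel (all of them directed upwards).  Let `w` be a braid word on `m`
strands and `r ≥ 1` such that `w^r` is a pure braid, every two strands of `w^r` having a linking number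
`≥ 0` and at least one of these numbers being different from `0` (for example a pure braid `w` with this
property and `r = 1`, such as the full twist; or any nonempty word in the letters `σ_i` and the order `r`
of its permutation).  Let `v` be any braid word.  For `n ∈ ℤ` let `K(n)` be the diagram obtained by putting
the braid `w^n v` into the box.  All the `K(n)` are diagrams of (multi-)knotoids.

* At most `2 r` of the diagrams `K(n)`, `n ∈ ℤ`, have the normalised bracket `1` of the trivial knotoid.
* For every Laurent polynomial `F` at most `2 r` of the diagrams `K(n)` are diagrams of knotoids, without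
  closed components, with the normalised bracket `F`. -/
theorem result (m : ℕ) (O : Outer m) (hO : ∀ j, O.up j = true) (hc : IsKnotoid O.close)
    (w v : List (Letter m)) (r : ℕ) (hr : 0 < r) (hw : IsPure (powW w r))
    (h0 : ∀ a b : Fin m, a ≠ b → 0 ≤ cross (powW w r) a b)
    (h1 : ∃ a b : Fin m, a ≠ b ∧ cross (powW w r) a b ≠ 0) :
    (∀ n : ℤ, IsKnotoid (dia O (powW w n ++ v))) ∧
    {n : ℤ | (dia O (powW w n ++ v)).fPoly = 1}.encard ≤ 2 * r ∧
    ∀ F : ℤ[T;T⁻¹],
      {n : ℤ | Nat.card (Quot (Strand (dia O (powW w n ++ v)))) = 1 ∧
        (dia O (powW w n ++ v)).fPoly = F}.encard ≤ 2 * r := by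
  have hm : 0 < m := h1.choose.pos
  have hG := good_knotoid hm O hO hc
  have hpos : ∀ a b : Fin m, a ≠ b → 0 ≤ crossN m (powL (toN w) r) a b := by
    intro a b hab
    rw [← toN_pow, crossN_eq]
    exact h0 a b hab
  have hne : ∃ a b : Fin m, a ≠ b ∧ crossN m (powL (toN w) r) a b ≠ 0 := by
    obtain ⟨a, b, hab, h⟩ := h1
    refine ⟨a, b, hab, ?_⟩
    rw [← toN_pow, crossN_eq]
    exact h
  have hp : permL (powL (toN w) r) = 1 := by
    rw [← toN_pow]
    exact permL_of_pure hw
  have hmain : ∀ F : ℤ[T;T⁻¹], ev1 F = 1 →
      {n : ℤ | (dia O (powW w n ++ v)).fPoly = F}.encard ≤ 2 * r := by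
    intro F hF
    have h2 := at_most_general hm O hO hG (toN w) (toN v) (toN_lt w) (toN_lt v) r hr hp hpos hne F hF
    have h3 : {n : ℤ | (dia O (powW w n ++ v)).fPoly = F} =
        {n : ℤ | ff O (powL (toN w) n ++ toN v) = F} := by
      ext n
      rw [Set.mem_ofPred_eq, Set.mem_ofPred_eq, dia_fPoly, toN_append, toN_pow]
    rw [h3]
    exact h2
  refine ⟨fun n => ?_, hmain 1 (map_one _), fun F => ?_⟩
  · exact draw_knotoid O hO hc _ (toN_lt (powW w n ++ v))
  · by_cases hF : ev1 F = 1
    · refine le_trans (Set.encard_le_encard ?_) (hmain F hF)
      rintro n ⟨_, hn⟩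
      exact hn
    · have h4 : {n : ℤ | Nat.card (Quot (Strand (dia O (powW w n ++ v)))) = 1 ∧
          (dia O (powW w n ++ v)).fPoly = F} = ∅ := by
        rw [Set.eq_empty_iff_forall_notMem]
        rintro n ⟨hk, hn⟩
        apply hF
        have h5 := hG.value (toN (powW w n ++ v)) (toN_lt _)
        have h6 : cyc O (prm m (toN (powW w n ++ v))) = 1 := by
          rw [Pool.Agent.Y463.BS.card_strand] at hk
          have h7 := close_cyc _ (draw_up' O hO (toN (powW w n ++ v)) (toN_lt _))
          rw [cyc_draw _ O (toN_lt _), one_mul] at h7
          rw [← h7]
          exact hk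
        rw [h6, ← dia_fPoly, hn, pow_one] at h5
        linarith
      rw [h4, Set.encard_empty]
      exact zero_le

end Pool.Agent.H970.TF.KnotoidResult
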