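import Pool.Agent.H970_TF.Vas

/-!
# A crossing between two parallel strands changes the number of components by one
-/

set_option autoImplicit false

namespace Pool.Agent.H970.TF

open Finset LaurentPolynomial Pool.Agent.H891R2.Jones Pool.Agent.W639.RB Pool.Agent.Y463.SK
open Pool.Agent.Y463.BS (E IsKnot Strand X E_nil lp_same lp_join card_strand mem_X W W_eq Two al
  m_bracket v lp_mem count_starts pts sign_parity knot_moments SX E_SX E_append noins pair Concl
  count_X count_pts_append)
open Pool.Agent.H832R3.VJ

variable {m : ℕ}

theorem cyc_swap_exact (O : Outer m) (hO : ∀ j, O.up j = true) (hc : O.close.IsClosed)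
    (σ : Equiv.Perm (Fin m)) (a b : Fin m) (hab : a ≠ b) :
    cyc O (σ * Equiv.swap a b) + 1 = cyc O σ ∨ cyc O (σ * Equiv.swap a b) = cyc O σ + 1 := by
  rw [perm_list O σ a b, perm_list O (σ * Equiv.swap a b) a b]
  have h1 : ((List.finRange m).filter (fun j => j ≠ a ∧ j ≠ b)).map
        (fun j => (O.lower j, O.upper ((σ * Equiv.swap a b) j))) =
      ((List.finRange m).filter (fun j => j ≠ a ∧ j ≠ b)).map
        (fun j => (O.lower j, O.upper (σ j))) := by
    apply List.map_congr_left
    intro j hj
    rw [List.mem_filter] at hj
    have h2 : j ≠ a ∧ j ≠ b := by simpa using hj.2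
    rw [Equiv.Perm.mul_apply, Equiv.swap_apply_of_ne_of_ne h2.1 h2.2]
  have ea : (σ * Equiv.swap a b) a = σ b := by rw [Equiv.Perm.mul_apply, Equiv.swap_apply_left]
  have eb : (σ * Equiv.swap a b) b = σ a := by rw [Equiv.Perm.mul_apply, Equiv.swap_apply_right]
  rw [h1, ea, eb]
  set Fl := (List.finRange m).filter (fun j => j ≠ a ∧ j ≠ b) with hFl
  have hperm : (List.finRange m).Perm (a :: b :: Fl) := by
    rw [List.perm_ext_iff_of_nodup (List.nodup_finRange m)]
    · intro j
      simp only [List.mem_finRange, List.mem_cons, hFl, List.mem_filter, true_iff, true_and,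
        decide_eq_true_eq]
      tauto
    · rw [List.nodup_cons, List.nodup_cons]
      refine ⟨?_, ?_, (List.nodup_finRange m).filter _⟩
      · simp only [List.mem_cons, hFl, List.mem_filter, decide_eq_true_eq]
        rintro (h | ⟨_, h, _⟩)
        · exact hab h
        · exact h rfl
      · simp only [hFl, List.mem_filter, decide_eq_true_eq]
        rintro ⟨_, _, h⟩
        exact h rfl
  set M := Fl.map (fun j => (O.lower j, O.upper (σ j))) with hM
  -- the starting and end points
  have hs : ∀ p, ((SX O.crossings ++ (O.arcs ++ M)).map Prod.fst ++ [O.lower a, O.lower b]).count p = 1 := by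
    intro p
    obtain ⟨g1, g2, g3⟩ := count_starts O.crossings p
    have h3 := (hc p).1
    have h4 : ((List.finRange m).map O.lower).count p =
        (Fl.map O.lower).count p + [O.lower a, O.lower b].count p := by
      rw [(hperm.map O.lower).count_eq p, List.map_cons, List.map_cons, List.count_cons,
        List.count_cons, List.count_cons, List.count_cons, List.count_nil]
      omega
    have h5 : M.map Prod.fst = Fl.map O.lower := by
      rw [hM, List.map_map]; rfl
    have h6 : (O.close.arcs).map Prod.fst = O.arcs.map Prod.fst ++ (List.finRange m).map O.lower := by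
      unfold Outer.close
      simp only [hO, if_true, List.map_append, List.map_map]
      rfl
    unfold Diagram.starts at h3
    simp only [List.count_append, h6] at h3
    have h7 : O.close.crossings = O.crossings := rfl
    rw [h7] at h3
    rw [List.map_append, List.map_append, h5, List.count_append, List.count_append,
      List.count_append]
    omega
  have he : ∀ p, ((SX O.crossings ++ (O.arcs ++ M)).map Prod.snd ++
      [O.upper (σ a), O.upper (σ b)]).count p = 1 := by
    intro p
    obtain ⟨g1, g2, g3⟩ := count_starts O.crossings p
    have h3 := (hc p).2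
    have h4 : ((List.finRange m).map O.upper).count p =
        (Fl.map (fun j => O.upper (σ j))).count p + [O.upper (σ a), O.upper (σ b)].count p := by
      have h8 : ((List.finRange m).map (fun j => O.upper (σ j))).Perm ((List.finRange m).map O.upper) := by
        have h9 := (Equiv.Perm.map_finRange_perm σ).map O.upper
        rw [List.map_map] at h9
        exact h9
      rw [← h8.count_eq p, (hperm.map (fun j => O.upper (σ j))).count_eq p, List.map_cons,
        List.map_cons, List.count_cons,
        List.count_cons, List.count_cons, List.count_cons, List.count_nil]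
      omega
    have h5 : M.map Prod.snd = Fl.map (fun j => O.upper (σ j)) := by
      rw [hM, List.map_map]; rfl
    have h6 : (O.close.arcs).map Prod.snd = O.arcs.map Prod.snd ++ (List.finRange m).map O.upper := by
      unfold Outer.close
      simp only [hO, if_true, List.map_append, List.map_map]
      rfl
    unfold Diagram.ends at h3
    simp only [List.count_append, h6] at h3
    have h7 : O.close.crossings = O.crossings := rfl
    rw [h7] at h3
    rw [List.map_append, List.map_append, h5, List.count_append, List.count_append,
      List.count_append]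
    omega
  set L := LO O ++ M with hL
  have hE : ∀ p q, E L p q ↔ E (SX O.crossings ++ (O.arcs ++ M)) p q := by
    intro p q
    rw [hL, LO, List.append_assoc]
    exact E_append (fun _ _ => Iff.rfl) (E_SX O.crossings) p q
  have hconcl : Concl L (O.lower a) (O.upper (σ a)) (O.lower b) (O.upper (σ b)) := by
    apply pair _ L rfl
    intro p
    right
    have h2 := hs p
    have h3 := he p
    obtain ⟨g1, g2, g3⟩ := count_starts O.crossings p
    have g4 := count_X O.crossings p
    rw [hL, LO, List.append_assoc]
    simp only [pts, List.map_append, List.count_append, List.count_cons, List.count_nil] at h2 h3 g4 ⊢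
    omega
  have mm : ∀ {z : O.P × O.P} {u w}, E L u w → E (z :: L) u w :=
      fun h => E.mono (fun p q hpq => E.of_mem (List.mem_cons_of_mem _ hpq)) h
  rcases hconcl with ⟨g1, g2, g3⟩ | ⟨g1, g2, g3⟩ | ⟨g1, g2, g3⟩
  · left
    have hcb : ¬ E L (O.lower b) (O.upper (σ a)) := fun h => g3 (g1.trans h.symm)
    rw [lp_same (mm g1), lp_same g2, lp_same, lp_join hcb]
    exact (mm g1).trans ((E.of_mem (by simp)).symm.trans (mm g2))
  · exfalso
    have g4 : ¬ E L (O.lower a) (O.upper (σ b)) := fun h => g3 (h.trans g2.symm)
    rw [hE] at g1 g3 g4
    exact noins _ _ _ _ _ (fun p => (hs p).trans (he p).symm) g1 g3 g4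
  · right
    have hcd : ¬ E L (O.lower b) (O.upper (σ b)) := fun h => g3 (g1.trans (h.symm.trans g2.symm))
    rw [lp_same (mm g1), lp_same g2.symm, lp_same, lp_join hcd]
    exact (mm g1).trans ((E.of_mem (by simp)).symm.trans (mm g2.symm))

end Pool.Agent.H970.TF
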