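import Pool.Agent.H970_TF.Link1

/-!
# The first differences of the normalised brackets
-/

set_option autoImplicit false

namespace Pool.Agent.H970.TF

open Finset LaurentPolynomial Pool.Agent.H891R2.Jones Pool.Agent.W639.RB Pool.Agent.Y463.SK

variable {m : ℕ}

/-- the constant of the first differences -/
noncomputable def kap1 (O : Outer m) (v w : List (Bool × ℕ)) : ℤ :=
  ((dels w).map (fun p => p.1 * (4 * psi O v [] + 2 * psi O v p.2))).sum

theorem HV_K (hm : 0 < m) (O : Outer m) (hO : ∀ j, O.up j = true) (w v : List (Bool × ℕ))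
    (hw : ∀ y ∈ w, y.2 + 1 < m) (hv : ∀ y ∈ v, y.2 + 1 < m) :
    HV O v ((KK1 (eS m) w : S0 m) : BB m) (kap1 O v w) := by
  have h0 : ∀ (L : List (ℤ × List (Bool × ℕ))) (f : ℤ × List (Bool × ℕ) → S0 m),
      (((L.map f).sum : S0 m) : BB m) = (L.map (fun p => (f p : BB m))).sum := by
    intro L f
    have := map_list_sum (S0 m).val (L.map f)
    rw [List.map_map] at this
    exact this
  have h1 : KK1 (eS m) w = ((dels w).map (fun p => p.1 • ((4 : ℤ) • (1 : S0 m) +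
    (2 : ℤ) • SW (eS m) p.2))).sum := rfl
  rw [h1, h0]
  unfold kap1
  refine HV.listSum _ _ _ fun p hp => ?_
  have hx : ∀ y ∈ p.2, y.2 + 1 < m := fun y hy => hw y (dels_mem w p hp y hy)
  have g1 := HV_SW hm O hO [] v (by simp) hv
  have g2 := HV_SW hm O hO p.2 v hx hv
  exact ((g1.zsmul 4).add (g2.zsmul 2)).zsmul p.1

theorem lin_form {R B : Type*} [CommRing R] [Ring B] [Algebra R B] (r : R) (y K z Y t : B)
    (hy : y = 1 - r • K + (r * r) • z) (hY : Y = 1 + r • t) :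
    ∃ z' : B, (y - 1) * Y = r • (-K + r • z') := by
  refine ⟨z - K * t + r • (z * t), ?_⟩
  have h1 : y - 1 = -(r • K) + (r * r) • z := by rw [hy]; abel
  rw [h1, hY]
  simp only [mul_add, add_mul, smul_mul_assoc, mul_smul_comm, neg_mul, mul_one, smul_add,
    smul_neg, smul_sub, smul_smul]
  module

/-- **The first differences.** -/
theorem first_diff (hm : 0 < m) (O : Outer m) (hO : ∀ j, O.up j = true) (w v : List (Bool × ℕ))
    (hw : ∀ y ∈ w, y.2 + 1 < m) (hp : permL w = 1) (hv : ∀ y ∈ v, y.2 + 1 < m) (n : ℤ) :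
    ∃ P : ℤ[T;T⁻¹], ff O (powL w (n+1) ++ v) - ff O (powL w n ++ v) =
      (T 1 - 1) * P ∧ ev1 P = - kap1 O v w := by
  set r : ℤ[T;T⁻¹] := T 1 - 1 with hr
  set X : ℤ → S0 m := fun n => (T (-3 * (n * expo w)) : ℤ[T;T⁻¹]) •
    wd (T 1 : ℤ[T;T⁻¹]) (T (-1)) (eS m) (powL w n) with hX
  have hval : ∀ n : ℤ, ∀ N : {N : ℕ // 3 ≤ N}, (N.1 : ℂ) * ev N.1 N.2 (ff O (powL w n ++ v)) =
      Kn O v N * Fn O N v (X n : BB m) := by
    intro n N
    have h1 := key_formula hm O w hw hp v hv N n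
    rw [cost_up (m := m) v _ (fun j hj => pat_up hO j hj) hv,
      cost_up (m := m) w _ (fun j hj => pat_up hO j hj) hw] at h1
    rw [h1, Kn]
    congr 2
    rw [← coe_wd]
    rfl
  set y : S0 m := (T (-3 * expo w) : ℤ[T;T⁻¹]) • wd (T 1 : ℤ[T;T⁻¹]) (T (-1)) (eS m) w with hy
  have hXs : ∀ n, X (n+1) = y * X n := by
    intro n
    apply Subtype.ext
    show (T (-3 * ((n+1) * expo w)) : ℤ[T;T⁻¹]) •
      ((wd (T 1 : ℤ[T;T⁻¹]) (T (-1)) (eS m) (powL w (n+1)) : S0 m) : BB m) =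
      ((T (-3 * expo w) : ℤ[T;T⁻¹]) • ((wd (T 1 : ℤ[T;T⁻¹]) (T (-1)) (eS m) w : S0 m) : BB m)) *
      ((T (-3 * (n * expo w)) : ℤ[T;T⁻¹]) •
        ((wd (T 1 : ℤ[T;T⁻¹]) (T (-1)) (eS m) (powL w n) : S0 m) : BB m))
    rw [coe_wd, coe_wd, coe_wd, bb_pow_succ w hw n, smul_mul_smul_comm, ← T_add]
    congr 2
    ring
  have hd : (-(T 1)^2 - (T (-1))^2 : ℤ[T;T⁻¹]) = -(T 1)^2 - (T (-1))^2 := rfl
  -- first order of `y`
  have hfirst : ∀ w' : List (Bool × ℕ), (∀ y ∈ w', y.2 + 1 < m) → permL w' = 1 →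
      ∃ z : S0 m, (T (-3 * expo w') : ℤ[T;T⁻¹]) • wd (T 1 : ℤ[T;T⁻¹]) (T (-1)) (eS m) w' =
        1 - r • KK1 (eS m) w' + (r * r) • z := by
    intro w' hw' hp'
    obtain ⟨c, hc⟩ := T_first (-3 * expo w')
    exact pure_first T_mul_inv hd (isTLr_eS m) w' hw' (even_length w' hw' hp') hp' _ c (by
      rw [hc, ex_expo]
      push_cast
      ring)
  obtain ⟨z, hz⟩ := hfirst w hw hp
  obtain ⟨z', hz'⟩ := hfirst (powL w n) (powL_lt hw n) (permL_powL hp n)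
  rw [expo_powL hw hp] at hz'
  have hXn : X n = 1 + r • (-KK1 (eS m) (powL w n) + r • z') := by
    rw [hX]
    simp only
    rw [hz', smul_add, smul_neg, smul_smul]
    abel
  obtain ⟨z'', hz''⟩ := lin_form r y (KK1 (eS m) w) z (X n) _ hz hXn
  obtain ⟨c, hc⟩ := HV_exists hm O hO v hv z''
  obtain ⟨P, hP1, hP2⟩ := ((HV_K hm O hO w v hw hv).zsmul (-1)).add (hc.smul r)
  refine ⟨P, ?_, by rw [hP1, ev1_r, zero_mul, add_zero]; ring⟩
  rw [← sub_eq_zero]
  apply eq_zero_of_ev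
  intro N hN
  have hNC : (N : ℂ) ≠ 0 := by
    rw [Nat.cast_ne_zero]; omega
  have e1 : X (n+1) - X n = (y - 1) * X n := by
    rw [hXs, sub_mul, one_mul]
  rw [hz''] at e1
  have e2 : (X (n+1) : BB m) - (X n : BB m) =
      r • ((-1 : ℤ) • ((KK1 (eS m) w : S0 m) : BB m) + r • (z'' : BB m)) := by
    have := congrArg (fun x : S0 m => (x : BB m)) e1
    rw [neg_one_smul]
    exact this
  have h3 := hP2 ⟨N, hN⟩
  have h5 := hval (n+1) ⟨N, hN⟩
  have h6 := hval n ⟨N, hN⟩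
  have h7 := congrArg (Fn O ⟨N, hN⟩ v) e2
  rw [Fn_smul, Fn_sub] at h7
  simp only at h3 h5 h6 h7
  have h8 : (N : ℂ) * ev N hN (ff O (powL w (n+1) ++ v) - ff O (powL w n ++ v) - r * P) = 0 := by
    rw [map_sub, map_sub, map_mul]
    linear_combination h5 - h6 - (ev N hN r) * h3 + (Kn O v ⟨N, hN⟩) * h7
  exact (mul_eq_zero.1 h8).resolve_left hNC

end Pool.Agent.H970.TF
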