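import Pool.Agent.H970_TF.Link2

/-!
# Links: the first or the second difference is not zero
-/

set_option autoImplicit false

namespace Pool.Agent.H970.TF

open Finset LaurentPolynomial Pool.Agent.H891R2.Jones Pool.Agent.W639.RB Pool.Agent.Y463.SK
open Pool.Agent.H832R3.VJ
open Pool.Agent.H832R3.VJ.V7 (moment_term moment_C_mul)
open Pool.Agent.H953R3.Q2 (m_sum m_one T_mul0 T_mul1 mul0 mul1 mul2 m0_T m_zero)

variable {m : ℕ}

/-- what is needed of the outside of the box -/
structure GoodL (O : Outer m) : Prop where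
  value : ∀ w : List (Bool × ℕ), (∀ x ∈ w, x.2 + 1 < m) →
    -2 * ev1 (ff O w) = (-2) ^ cyc O (prm m w)
  jump : ∀ (σ : Equiv.Perm (Fin m)) (a b : Fin m), a ≠ b →
    cyc O (σ * Equiv.swap a b) + 1 = cyc O σ ∨ cyc O (σ * Equiv.swap a b) = cyc O σ + 1

theorem goodL_closed (hm : 0 < m) (O : Outer m) (hO : ∀ j, O.up j = true)
    (hc : O.close.IsClosed) : GoodL O :=
  ⟨fun w hw => value_ff hm O hO hc w hw, fun σ a b hab => cyc_swap_exact O hO hc σ a b hab⟩

theorem psi_val {O : Outer m} (hG : GoodL O) {v x : List (Bool × ℕ)} (hx : ∀ y ∈ x, y.2 + 1 < m)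
    (hv : ∀ y ∈ v, y.2 + 1 < m) : -2 * psi O v x = (-2) ^ cyc O (prm m v * prm m x) := by
  have h := hG.value (x ++ v) (by
    intro y hy
    rcases List.mem_append.1 hy with h | h
    · exact hx y h
    · exact hv y h)
  rw [prm_append] at h
  exact h

theorem kap1_eq {O : Outer m} (hG : GoodL O) {w v : List (Bool × ℕ)} (hw : ∀ y ∈ w, y.2 + 1 < m)
    (hv : ∀ y ∈ v, y.2 + 1 < m) : -2 * kap1 O v w =
    ∑ τ, Lc m w τ * (4 * (-2) ^ cyc O (prm m v) + 2 * (-2) ^ cyc O (prm m v * τ)) := by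
  rw [← Lc_sum w (fun τ => (4 * (-2) ^ cyc O (prm m v) + 2 * (-2) ^ cyc O (prm m v * τ) : ℤ))]
  unfold kap1
  rw [← List.sum_map_mul_left]
  congr 1
  apply List.map_congr_left
  intro p hp
  have h0 := psi_val hG (x := []) (v := v) (by simp) hv
  have h1 := psi_val hG (x := p.2) (v := v) (fun y hy => hw y (dels_mem w p hp y hy)) hv
  have h2 : prm m [] = 1 := rfl
  rw [h2, mul_one] at h0
  rw [← h0, ← h1]
  ring

theorem kap_eq {O : Outer m} (hG : GoodL O) {w v : List (Bool × ℕ)} (hw : ∀ y ∈ w, y.2 + 1 < m)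
    (hv : ∀ y ∈ v, y.2 + 1 < m) : -2 * kap O v w =
    ∑ τ, ∑ τ', Lc m w τ * (Lc m w τ' * (16 * (-2) ^ cyc O (prm m v) +
      8 * (-2) ^ cyc O (prm m v * τ) + 8 * (-2) ^ cyc O (prm m v * τ') +
      4 * (-2) ^ cyc O (prm m v * τ' * τ))) := by
  set hh : Equiv.Perm (Fin m) → Equiv.Perm (Fin m) → ℤ := fun τ τ' =>
    (16 * (-2) ^ cyc O (prm m v) +
      8 * (-2) ^ cyc O (prm m v * τ) + 8 * (-2) ^ cyc O (prm m v * τ') +
      4 * (-2) ^ cyc O (prm m v * τ' * τ)) with hhh
  have hk : -2 * kap O v w = ((dels w).map (fun p => p.1 * ((dels w).map (fun p' => p'.1 *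
      hh (prm m p.2) (prm m p'.2))).sum)).sum := by
    unfold kap
    rw [← List.sum_map_mul_left]
    congr 1
    apply List.map_congr_left
    intro p hp1
    rw [← List.sum_map_mul_left, ← List.sum_map_mul_left]
    congr 1
    apply List.map_congr_left
    intro p' hp2
    have hx := fun y hy => hw y (dels_mem w p hp1 y hy)
    have hx' := fun y hy => hw y (dels_mem w p' hp2 y hy)
    have h0 := psi_val hG (x := []) (v := v) (by simp) hv
    have h1 := psi_val hG (x := p.2) (v := v) hx hv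
    have h2 := psi_val hG (x := p'.2) (v := v) hx' hv
    have h3 := psi_val hG (x := p.2 ++ p'.2) (v := v) (by
      intro y hy
      rcases List.mem_append.1 hy with h | h
      · exact hx y h
      · exact hx' y h) hv
    have h4 : prm m [] = 1 := rfl
    rw [h4, mul_one] at h0
    rw [prm_append, ← mul_assoc] at h3
    rw [hhh]
    simp only
    rw [← h0, ← h1, ← h2, ← h3]
    ring
  rw [hk, Lc_sum w (fun τ => ((dels w).map (fun p' => p'.1 * hh τ (prm m p'.2))).sum)]
  refine Finset.sum_congr rfl fun τ _ => ?_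
  rw [Lc_sum w (hh τ), Finset.mul_sum]

/-- the first or the second difference is not zero -/
theorem kap_cases {O : Outer m} (hG : GoodL O)
    {w v : List (Bool × ℕ)} (hw : ∀ y ∈ w, y.2 + 1 < m) (hv : ∀ y ∈ v, y.2 + 1 < m)
    (hp : prm m w = 1)
    (hpos : ∀ a b : Fin m, a ≠ b → 0 ≤ crossN m w a b)
    (hne : ∃ a b : Fin m, a ≠ b ∧ crossN m w a b ≠ 0) : kap1 O v w ≠ 0 ∨ kap O v w ≠ 0 := by
  have hsup : ∀ τ, Lc m w τ ≠ 0 → ∃ p ∈ dels w, prm m p.2 = τ := by
    intro τ h
    by_contra hcon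
    push Not at hcon
    apply h
    unfold Lc
    have : (dels w).map (fun p => if prm m p.2 = τ then p.1 else 0) = (dels w).map (fun _ => 0) := by
      apply List.map_congr_left
      intro p hp'
      rw [if_neg (hcon p hp')]
    rw [this]
    simp
  have hswap : ∀ τ, Lc m w τ ≠ 0 → ∃ a b : Fin m, a ≠ b ∧ τ = Equiv.swap a b := by
    intro τ h
    obtain ⟨p, hp1, rfl⟩ := hsup τ h
    obtain ⟨a, b, hab, h2⟩ := dels_prm w hw p hp1
    exact ⟨a, b, hab, by rw [h2, hp, one_mul]⟩
  have hLc : ∀ a b : Fin m, a ≠ b → Lc m w (Equiv.swap a b) = crossN m w a b := by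
    intro a b hab
    have := Lc_cross w a b hab
    rwa [hp, one_mul] at this
  have hLpos : ∀ τ, 0 ≤ Lc m w τ := by
    intro τ
    by_cases h : Lc m w τ = 0
    · rw [h]
    · obtain ⟨a, b, hab, rfl⟩ := hswap τ h
      rw [hLc a b hab]
      exact hpos a b hab
  set c := cyc O (prm m v) with hcdef
  set q : ℤ := (-2) ^ c with hq
  have hqq : 0 < q * q := by
    have : q ≠ 0 := pow_ne_zero _ (by norm_num)
    exact mul_self_pos.2 this
  by_cases hA : ∃ a b : Fin m, a ≠ b ∧ crossN m w a b ≠ 0 ∧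
      cyc O (prm m v * Equiv.swap a b) + 1 = c
  · left
    obtain ⟨a, b, hab, hab', hcab⟩ := hA
    intro h0
    have h1 := kap1_eq hG hw hv
    rw [h0, mul_zero] at h1
    have h2 : 0 < ∑ τ, Lc m w τ * ((4 * q + 2 * (-2) ^ cyc O (prm m v * τ)) * q) := by
      have hterm : ∀ τ, 0 ≤ Lc m w τ * ((4 * q + 2 * (-2) ^ cyc O (prm m v * τ)) * q) := by
        intro τ
        by_cases h : Lc m w τ = 0
        · rw [h, zero_mul]
        obtain ⟨a', b', hab1, rfl⟩ := hswap τ h
        apply mul_nonneg (hLpos _)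
        rcases hG.jump (prm m v) a' b' hab1 with h3 | h3
        · have e1 : q = (-2) ^ cyc O (prm m v * Equiv.swap a' b') * (-2) := by
            rw [hq, hcdef, ← h3, pow_succ]
          have e2 : (2 * (-2) ^ cyc O (prm m v * Equiv.swap a' b') : ℤ) = -q := by
            rw [e1]; ring
          rw [e2]
          nlinarith
        · rw [h3, pow_succ]
          have e2 : (4 * q + 2 * ((-2) ^ cyc O (prm m v) * (-2))) * q = 0 := by
            rw [hq]; ring
          rw [e2]
      refine Finset.sum_pos' (fun τ _ => hterm τ) ⟨Equiv.swap a b, Finset.mem_univ _, ?_⟩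
      have e1 : q = (-2) ^ cyc O (prm m v * Equiv.swap a b) * (-2) := by
        rw [hq, ← hcab, pow_succ]
      have e2 : (2 * (-2) ^ cyc O (prm m v * Equiv.swap a b) : ℤ) = -q := by
        rw [e1]; ring
      rw [e2]
      have e3 : 0 < Lc m w (Equiv.swap a b) := by
        rw [hLc a b hab]
        exact lt_of_le_of_ne (hpos a b hab) (Ne.symm hab')
      apply mul_pos e3
      nlinarith
    have h3 : ∑ τ, Lc m w τ * ((4 * q + 2 * (-2) ^ cyc O (prm m v * τ)) * q) =
        (∑ τ, Lc m w τ * (4 * q + 2 * (-2) ^ cyc O (prm m v * τ))) * q := by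
      rw [Finset.sum_mul]
      exact Finset.sum_congr rfl fun τ _ => by ring
    rw [h3, ← h1, zero_mul] at h2
    exact lt_irrefl _ h2
  · right
    have hB : ∀ a b : Fin m, a ≠ b → crossN m w a b ≠ 0 →
        cyc O (prm m v * Equiv.swap a b) = c + 1 := by
      intro a b hab h
      rcases hG.jump (prm m v) a b hab with h3 | h3
      · exact absurd ⟨a, b, hab, h, h3⟩ hA
      · exact h3
    obtain ⟨a, b, hab, hab'⟩ := hne
    intro h0
    have h1 := kap_eq hG hw hv
    rw [h0, mul_zero] at h1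
    have hB' : ∀ τ, Lc m w τ ≠ 0 → cyc O (prm m v * τ) = c + 1 := by
      intro τ h
      obtain ⟨a', b', hab1, rfl⟩ := hswap τ h
      exact hB a' b' hab1 (by rwa [hLc a' b' hab1] at h)
    have h2 : ∑ τ, ∑ τ', Lc m w τ * (Lc m w τ' * ((16 * q +
      8 * (-2) ^ cyc O (prm m v * τ) + 8 * (-2) ^ cyc O (prm m v * τ') +
      4 * (-2) ^ cyc O (prm m v * τ' * τ)) * q)) < 0 := by
      have hterm : ∀ τ τ', Lc m w τ * (Lc m w τ' * ((16 * q +
          8 * (-2) ^ cyc O (prm m v * τ) + 8 * (-2) ^ cyc O (prm m v * τ') +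
          4 * (-2) ^ cyc O (prm m v * τ' * τ)) * q)) ≤ 0 := by
        intro τ τ'
        by_cases h : Lc m w τ = 0
        · rw [h, zero_mul]
        by_cases h' : Lc m w τ' = 0
        · rw [h', zero_mul, mul_zero]
        have g1 := hB' τ h
        have g2 := hB' τ' h'
        have g3 : cyc O (prm m v * τ' * τ) = c ∨ cyc O (prm m v * τ' * τ) = c + 2 := by
          obtain ⟨a', b', hab1, rfl⟩ := hswap τ h
          rcases hG.jump (prm m v * τ') a' b' hab1 with h3 | h3
          · left; omega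
          · right; omega
        have g4 : (16 * q + 8 * (-2) ^ cyc O (prm m v * τ) + 8 * (-2) ^ cyc O (prm m v * τ') +
            4 * (-2) ^ cyc O (prm m v * τ' * τ)) * q ≤ 0 := by
          rw [g1, g2]
          rcases g3 with g3 | g3
          · rw [g3, pow_succ, ← hq]
            nlinarith
          · rw [g3, pow_succ, pow_succ, pow_succ, ← hq]
            nlinarith
        exact mul_nonpos_of_nonneg_of_nonpos (hLpos τ)
          (mul_nonpos_of_nonneg_of_nonpos (hLpos τ') g4)
      have hmain : Lc m w (Equiv.swap a b) * (Lc m w (Equiv.swap a b) * ((16 * q +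
          8 * (-2) ^ cyc O (prm m v * Equiv.swap a b) + 8 * (-2) ^ cyc O (prm m v * Equiv.swap a b) +
          4 * (-2) ^ cyc O (prm m v * Equiv.swap a b * Equiv.swap a b)) * q)) < 0 := by
        have e3 : 0 < Lc m w (Equiv.swap a b) := by
          rw [hLc a b hab]
          exact lt_of_le_of_ne (hpos a b hab) (Ne.symm hab')
        apply mul_neg_of_pos_of_neg e3
        apply mul_neg_of_pos_of_neg e3
        rw [mul_assoc (prm m v), Equiv.swap_mul_self, mul_one, hB a b hab hab', pow_succ, ← hq]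
        nlinarith
      refine Finset.sum_neg' (fun τ _ => Finset.sum_nonpos fun τ' _ => hterm τ τ')
        ⟨Equiv.swap a b, Finset.mem_univ _, ?_⟩
      exact Finset.sum_neg' (fun τ' _ => hterm _ τ') ⟨Equiv.swap a b, Finset.mem_univ _, hmain⟩
    have h3 : ∑ τ, ∑ τ', Lc m w τ * (Lc m w τ' * ((16 * q +
      8 * (-2) ^ cyc O (prm m v * τ) + 8 * (-2) ^ cyc O (prm m v * τ') +
      4 * (-2) ^ cyc O (prm m v * τ' * τ)) * q)) = (∑ τ, ∑ τ', Lc m w τ * (Lc m w τ' * (16 * q +
      8 * (-2) ^ cyc O (prm m v * τ) + 8 * (-2) ^ cyc O (prm m v * τ') +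
      4 * (-2) ^ cyc O (prm m v * τ' * τ)))) * q := by
      rw [Finset.sum_mul]
      refine Finset.sum_congr rfl fun τ _ => ?_
      rw [Finset.sum_mul]
      exact Finset.sum_congr rfl fun τ' _ => by ring
    rw [h3, ← h1, zero_mul] at h2
    exact lt_irrefl _ h2

end Pool.Agent.H970.TF
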