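import Pool.Agent.H970_TF.Link3

/-!
# Families of links and Vassiliev invariants of order two
-/

set_option autoImplicit false

namespace Pool.Agent.H970.TF

open Finset LaurentPolynomial Pool.Agent.H891R2.Jones Pool.Agent.W639.RB Pool.Agent.Y463.SK
open Pool.Agent.H832R3.VJ
open Pool.Agent.H832R3.VJ.V7 (moment_term moment_C_mul)
open Pool.Agent.H953R3.Q2 (m_sum m_one T_mul0 T_mul1 mul0 mul1 mul2 m0_T m_zero)

variable {m : ℕ}

/-- the first moments form a sequence with constant difference -/
theorem first_diff_moment (hm : 0 < m) (O : Outer m) (hO : ∀ j, O.up j = true)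
    (w v : List (Bool × ℕ)) (hw : ∀ y ∈ w, y.2 + 1 < m) (hv : ∀ y ∈ v, y.2 + 1 < m)
    (hp : permL w = 1) (n : ℤ) :
    moment 1 (ff O (powL w (n+1) ++ v)) - moment 1 (ff O (powL w n ++ v)) = - kap1 O v w := by
  obtain ⟨P, hP, hP'⟩ := first_diff hm O hO w v hw hp hv n
  have h := congrArg (moment 1) hP
  obtain ⟨h0, h1⟩ := r_moments
  rw [moment_sub, mul1, h0, h1, ← ev1_moment, hP'] at h
  rw [h]
  ring

theorem first_moment (hm : 0 < m) (O : Outer m) (hO : ∀ j, O.up j = true)
    (w v : List (Bool × ℕ)) (hw : ∀ y ∈ w, y.2 + 1 < m) (hv : ∀ y ∈ v, y.2 + 1 < m)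
    (hp : permL w = 1) (n : ℤ) :
    moment 1 (ff O (powL w n ++ v)) = moment 1 (ff O (powL w 0 ++ v)) - n * kap1 O v w := by
  induction n using Int.induction_on with
  | zero => ring
  | succ i ih =>
    have := first_diff_moment hm O hO w v hw hv hp i
    linear_combination this + ih
  | pred i ih =>
    have := first_diff_moment hm O hO w v hw hv hp (-(i : ℤ) - 1)
    rw [sub_add_cancel] at this
    linear_combination ih - this

/-- **At most two**, order two, links. -/
theorem at_most_two_link (hm : 0 < m) (O : Outer m) (hO : ∀ j, O.up j = true) (hG : GoodL O)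
    (w v : List (Bool × ℕ)) (hw : ∀ y ∈ w, y.2 + 1 < m) (hv : ∀ y ∈ v, y.2 + 1 < m)
    (hp : permL w = 1)
    (hpos : ∀ a b : Fin m, a ≠ b → 0 ≤ crossN m w a b)
    (hne : ∃ a b : Fin m, a ≠ b ∧ crossN m w a b ≠ 0) (F G : ℤ) :
    {n : ℤ | moment 1 (ff O (powL w n ++ v)) = F ∧
      moment 2 (ff O (powL w n ++ v)) = G}.encard ≤ 2 := by
  rcases kap_cases hG hw hv (prm_one_of_permL hw hp) hpos hne with hk | hk
  · have hsub : {n : ℤ | moment 1 (ff O (powL w n ++ v)) = F ∧
        moment 2 (ff O (powL w n ++ v)) = G}.Subsingleton := by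
      intro x hx y hy
      rw [Set.mem_ofPred_eq] at hx hy
      have h1 := first_moment hm O hO w v hw hv hp x
      have h2 := first_moment hm O hO w v hw hv hp y
      have h3 : (x - y) * kap1 O v w = 0 := by
        linear_combination h1 - h2 - hx.1 + hy.1
      have h4 := (mul_eq_zero.1 h3).resolve_right hk
      linarith
    exact (Set.encard_le_one_iff_subsingleton.2 hsub).trans (by norm_num)
  · by_contra hcon
    push Not at hcon
    have hcon' : 3 ≤ {n : ℤ | moment 1 (ff O (powL w n ++ v)) = F ∧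
        moment 2 (ff O (powL w n ++ v)) = G}.encard := by
      have := Order.add_one_le_of_lt hcon
      norm_num at this
      exact this
    obtain ⟨t, ht, ht3⟩ := Set.exists_subset_encard_eq hcon'
    obtain ⟨x, y, z, hxy, hxz, hyz, rfl⟩ := Set.encard_eq_three.1 ht3
    have hx : _ ∧ moment 2 (ff O (powL w x ++ v)) = G := ht (by simp)
    have hy : _ ∧ moment 2 (ff O (powL w y ++ v)) = G := ht (by simp)
    have hz : _ ∧ moment 2 (ff O (powL w z ++ v)) = G := ht (by simp)
    have key : ∀ a b c : ℤ, a < b → b < c → moment 2 (ff O (powL w a ++ v)) = G →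
        moment 2 (ff O (powL w b ++ v)) = G → moment 2 (ff O (powL w c ++ v)) = G → False := by
      intro a b c hab hbc ha hb hc'
      refine three_points (RingHom.id ℤ) 1 one_ne_zero (2 * kap O v w)
        (mul_ne_zero two_ne_zero hk) (fun n => moment 2 (ff O (powL w n ++ v)))
        (fun n => ⟨2 * kap O v w, ?_, rfl⟩) a (b - a).toNat (c - a).toNat (by omega)
        (by omega) ?_ ?_
      · rw [second_diff_moment hm O hO w v hw hv hp n]
        ring
      · have : a + ((b - a).toNat : ℤ) = b := by omega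
        simp only [this, ha, hb]
      · have : a + ((c - a).toNat : ℤ) = c := by omega
        simp only [this, ha, hc']
    rcases lt_or_gt_of_ne hxy with h1 | h1 <;> rcases lt_or_gt_of_ne hxz with h2 | h2 <;>
      rcases lt_or_gt_of_ne hyz with h3 | h3
    · exact key x y z h1 h3 hx.2 hy.2 hz.2
    · exact key x z y h2 h3 hx.2 hz.2 hy.2
    · omega
    · exact key z x y h2 h1 hz.2 hx.2 hy.2
    · exact key y x z h1 h2 hy.2 hx.2 hz.2
    · omega
    · exact key y z x h3 h2 hy.2 hz.2 hx.2
    · exact key z y x h3 h1 hz.2 hy.2 hx.2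

/-- the general version, order two, links -/
theorem at_most_general_link (hm : 0 < m) (O : Outer m) (hO : ∀ j, O.up j = true)
    (hG : GoodL O)
    (w v : List (Bool × ℕ)) (hw : ∀ y ∈ w, y.2 + 1 < m) (hv : ∀ y ∈ v, y.2 + 1 < m)
    (r : ℕ) (hr : 0 < r) (hp : permL (powL w r) = 1)
    (hpos : ∀ a b : Fin m, a ≠ b → 0 ≤ crossN m (powL w r) a b)
    (hne : ∃ a b : Fin m, a ≠ b ∧ crossN m (powL w r) a b ≠ 0) (F G : ℤ) :
    {n : ℤ | moment 1 (ff O (powL w n ++ v)) = F ∧
      moment 2 (ff O (powL w n ++ v)) = G}.encard ≤ 2 * r :=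
  residues hm O w v hw hv r hr (fun p => moment 1 p = F ∧ moment 2 p = G)
    (fun v' hv' => at_most_two_link hm O hO hG (powL w r) v' (powL_lt hw r) hv' hp hpos hne F G)

end Pool.Agent.H970.TF
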