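import Pool.Agent.H970_TF.Comp4

/-!
# At most two members of a family of powers have the same normalised bracket
-/

set_option autoImplicit false

namespace Pool.Agent.H970.TF

open Finset LaurentPolynomial Pool.Agent.H891R2.Jones Pool.Agent.W639.RB Pool.Agent.Y463.SK
open Pool.Agent.H832R3.VJ

variable {m : ℕ}

theorem cyc_one_of_value (n : ℕ) (h : (-2 : ℤ) ^ n = -2) : n = 1 := by
  have h1 : (2 : ℤ) ^ n = 2 ^ 1 := by
    have := congrArg abs h
    rw [abs_pow] at this
    norm_num at this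
    rw [this]; norm_num
  exact Int.pow_right_injective (by norm_num) h1

theorem cyc_two_of_value (n : ℕ) (h : (-2 : ℤ) ^ n = 4) : n = 2 := by
  have h1 : (2 : ℤ) ^ n = 2 ^ 2 := by
    have := congrArg abs h
    rw [abs_pow] at this
    norm_num at this
    rw [this]; norm_num
  exact Int.pow_right_injective (by norm_num) h1

theorem kap_neg (hm : 0 < m) (O : Outer m) (hO : ∀ j, O.up j = true) (hG : GoodV O)
    (w v : List (Bool × ℕ)) (hw : ∀ y ∈ w, y.2 + 1 < m) (hv : ∀ y ∈ v, y.2 + 1 < m)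
    (hp : prm m w = 1) (h1 : ev1 (ff O v) = 1)
    (hpos : ∀ a b : Fin m, a ≠ b → 0 ≤ crossN m w a b)
    (hne : ∃ a b : Fin m, a ≠ b ∧ crossN m w a b ≠ 0) : kap O v w < 0 := by
  have hcv : cyc O (prm m v) = 1 := by
    have := hG.value v hv
    rw [h1, mul_one] at this
    exact cyc_one_of_value _ this.symm
  -- one deletion
  have hdel : ∀ p ∈ dels w, ev1 (ff O (p.2 ++ v)) = -2 := by
    intro p hp'
    obtain ⟨a, b, x, e1, e2⟩ := dels_split w p hp'
    have hx : x.2 + 1 < m := hw x (by rw [e1]; simp)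
    have ha : ∀ y ∈ a, y.2 + 1 < m := fun y hy => hw y (by rw [e1]; simp [hy])
    have hb : ∀ y ∈ b ++ v, y.2 + 1 < m := by
      intro y hy
      rcases List.mem_append.1 hy with h | h
      · exact hw y (by rw [e1]; simp [h])
      · exact hv y h
    rw [e2, List.append_assoc]
    refine smooth_knot hm O hO hG a (b ++ v) x.2 hx ha hb ?_
    have h2 : prm m (a ++ (true, x.2) :: (b ++ v)) = prm m (w ++ v) := by
      rw [e1, List.append_assoc, prm_append, prm_append]
      rfl
    rw [h2, prm_append, hp, mul_one, hcv]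
  have hdelc : ∀ p ∈ dels w, cyc O (prm m v * prm m p.2) = 2 := by
    intro p hp'
    have h2 := hG.value (p.2 ++ v) (by
      intro y hy
      rcases List.mem_append.1 hy with h | h
      · exact hw y (dels_mem w p hp' y h)
      · exact hv y h)
    rw [hdel p hp', prm_append] at h2
    exact cyc_two_of_value _ (by rw [← h2]; norm_num)
  set hh : Equiv.Perm (Fin m) → Equiv.Perm (Fin m) → ℤ :=
    fun τ τ' => -2 * (-2) ^ cyc O (prm m v * τ' * τ) - 16 with hhh
  have hk : kap O v w = ((dels w).map (fun p => p.1 * ((dels w).map (fun p' => p'.1 *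
      hh (prm m p.2) (prm m p'.2))).sum)).sum := by
    unfold kap
    congr 1
    apply List.map_congr_left
    intro p hp1
    rw [← List.sum_map_mul_left]
    congr 1
    apply List.map_congr_left
    intro p' hp2
    have h2 := hG.value (p.2 ++ p'.2 ++ v) (by
      intro y hy
      rcases List.mem_append.1 hy with h | h
      · rcases List.mem_append.1 h with h | h
        · exact hw y (dels_mem w p hp1 y h)
        · exact hw y (dels_mem w p' hp2 y h)
      · exact hv y h)
    rw [prm_append, prm_append, ← mul_assoc] at h2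
    unfold psi
    rw [List.nil_append, h1, hdel p hp1, hdel p' hp2, hhh]
    simp only
    rw [← h2]
    ring
  have hk2 : kap O v w = ∑ τ, ∑ τ', Lc m w τ * (Lc m w τ' * hh τ τ') := by
    rw [hk, Lc_sum w (fun τ => ((dels w).map (fun p' => p'.1 * hh τ (prm m p'.2))).sum)]
    refine Finset.sum_congr rfl fun τ _ => ?_
    rw [Lc_sum w (hh τ), Finset.mul_sum]
  -- the support of `Lc`
  have hsup : ∀ τ, Lc m w τ ≠ 0 → ∃ p ∈ dels w, prm m p.2 = τ := by
    intro τ h
    by_contra hcon
    push Not at hcon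
    apply h
    unfold Lc
    have : (dels w).map (fun p => if prm m p.2 = τ then p.1 else 0) = (dels w).map (fun _ => 0) := by
      apply List.map_congr_left
      intro p hp'
      rw [if_neg (hcon p hp')]
    rw [this]
    simp
  have hswap : ∀ τ, Lc m w τ ≠ 0 → ∃ a b : Fin m, a ≠ b ∧ τ = Equiv.swap a b := by
    intro τ h
    obtain ⟨p, hp1, rfl⟩ := hsup τ h
    obtain ⟨a, b, hab, h2⟩ := dels_prm w hw p hp1
    exact ⟨a, b, hab, by rw [h2, hp, one_mul]⟩
  have hLc : ∀ a b : Fin m, a ≠ b → Lc m w (Equiv.swap a b) = crossN m w a b := by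
    intro a b hab
    have := Lc_cross w a b hab
    rwa [hp, one_mul] at this
  have hLpos : ∀ τ, 0 ≤ Lc m w τ := by
    intro τ
    by_cases h : Lc m w τ = 0
    · rw [h]
    · obtain ⟨a, b, hab, rfl⟩ := hswap τ h
      rw [hLc a b hab]
      exact hpos a b hab
  have hterm : ∀ τ τ', Lc m w τ * (Lc m w τ' * hh τ τ') ≤ 0 := by
    intro τ τ'
    by_cases h : Lc m w τ = 0
    · rw [h, zero_mul]
    by_cases h' : Lc m w τ' = 0
    · rw [h', zero_mul, mul_zero]
    obtain ⟨a, b, hab, e⟩ := hswap τ h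
    obtain ⟨p, hp1, e'⟩ := hsup τ' h'
    have h2 := hdelc p hp1
    rw [e'] at h2
    have h3 := cyc_swap_le O (prm m v * τ') a b
    rw [← e, h2] at h3
    have h4 : hh τ τ' ≤ 0 := by
      rw [hhh]
      simp only
      generalize cyc O (prm m v * τ' * τ) = c at h3
      have hc4 : c ≤ 4 := h3
      interval_cases c <;> norm_num
    have h5 : Lc m w τ' * hh τ τ' ≤ 0 := mul_nonpos_of_nonneg_of_nonpos (hLpos τ') h4
    exact mul_nonpos_of_nonneg_of_nonpos (hLpos τ) h5
  obtain ⟨a, b, hab, hab'⟩ := hne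
  have hLab : 0 < Lc m w (Equiv.swap a b) := by
    rw [hLc a b hab]
    exact lt_of_le_of_ne (hpos a b hab) (Ne.symm hab')
  have hmain : Lc m w (Equiv.swap a b) * (Lc m w (Equiv.swap a b) *
      hh (Equiv.swap a b) (Equiv.swap a b)) < 0 := by
    have h2 : hh (Equiv.swap a b) (Equiv.swap a b) = -12 := by
      rw [hhh]
      simp only
      rw [mul_assoc, Equiv.swap_mul_self, mul_one, hcv]
      norm_num
    rw [h2]
    nlinarith
  rw [hk2]
  refine Finset.sum_neg' (fun τ _ => Finset.sum_nonpos fun τ' _ => hterm τ τ')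
    ⟨Equiv.swap a b, Finset.mem_univ _, ?_⟩
  exact Finset.sum_neg' (fun τ' _ => hterm _ τ') ⟨Equiv.swap a b, Finset.mem_univ _, hmain⟩

/-- three equal values of a sequence with second differences `r² P n`, `P n` of constant value
`κ ≠ 0` -/
theorem three_points {R : Type*} [CommRing R] [IsDomain R] (e : R →+* ℤ) (r : R) (hr : r ≠ 0) (κ : ℤ)
    (hκ : κ ≠ 0) (f : ℤ → R)
    (h : ∀ n, ∃ P : R, f (n+2) - 2 * f (n+1) + f n = (r * r) * P ∧ e P = κ)
    (a : ℤ) (k l : ℕ) (hk : 0 < k) (hkl : k < l) (h1 : f (a + k) = f a) (h2 : f (a + l) = f a) :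
    False := by
  have key : ∀ n : ℕ, (∃ S : R, f (a + n + 1) - f (a + n) = f (a + 1) - f a + r * r * S ∧
      e S = κ * n) ∧ ∃ S : R, f (a + n) = f a + n * (f (a + 1) - f a) + r * r * S ∧
      2 * e S = κ * (n * (n - 1)) := by
    intro n
    induction n with
    | zero =>
      refine ⟨⟨0, by simp, by simp⟩, ⟨0, by simp, by simp⟩⟩
    | succ n ih =>
      obtain ⟨⟨S, hS, hS'⟩, S2, hS2, hS2'⟩ := ih
      obtain ⟨P, hP, hP'⟩ := h (a + n)
      have e1 : a + n + 2 = a + (n + 1 : ℕ) + 1 := by push_cast; ring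
      have e2 : a + n + 1 = a + (n + 1 : ℕ) := by push_cast; ring
      rw [e1, e2] at hP
      rw [e2] at hS
      refine ⟨⟨S + P, ?_, ?_⟩, ⟨S2 + S, ?_, ?_⟩⟩
      · linear_combination hP + hS
      · rw [map_add, hS', hP']; push_cast; ring
      · push_cast at hS2 ⊢
        push_cast at hS
        linear_combination hS2 + hS
      · rw [map_add, mul_add, hS2', hS']; push_cast; ring
  obtain ⟨-, S, hS, hS'⟩ := key k
  obtain ⟨-, S2, hS2, hS2'⟩ := key l
  rw [h1] at hS
  rw [h2] at hS2
  have h3 : (r * r) * ((l : R) * S - (k : R) * S2) = 0 := by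
    linear_combination (-(l : R)) * hS + (k : R) * hS2
  have h4 : (l : R) * S - (k : R) * S2 = 0 :=
    (mul_eq_zero.1 h3).resolve_left (mul_ne_zero hr hr)
  have h5 := congrArg e h4
  rw [map_sub, map_mul, map_mul, map_natCast, map_natCast, map_zero] at h5
  have h6 : κ * ((l : ℤ) * k * (k - l)) = 0 := by
    linear_combination 2 * h5 - (l : ℤ) * hS' + (k : ℤ) * hS2'
  have h7 : ((l : ℤ) * k * (k - l)) ≠ 0 := by
    have g1 : (l : ℤ) ≠ 0 := by omega
    have g2 : (k : ℤ) ≠ 0 := by omega
    have g3 : (k : ℤ) - l ≠ 0 := by omega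
    exact mul_ne_zero (mul_ne_zero g1 g2) g3
  exact (mul_ne_zero hκ h7) h6

theorem r_ne : (T 1 - 1 : ℤ[T;T⁻¹]) ≠ 0 := by
  intro h
  have h1 := congrArg (moment 1) h
  have g1 : (T 1 : ℤ[T;T⁻¹]) = C 1 * T 1 := by rw [map_one, one_mul]
  rw [moment_sub, g1, Pool.Agent.H832R3.VJ.V7.moment_term, Pool.Agent.H953R3.Q2.m_one,
    Pool.Agent.H953R3.Q2.m_zero] at h1
  norm_num at h1

/-- **At most two.** -/
theorem at_most_two (hm : 0 < m) (O : Outer m) (hO : ∀ j, O.up j = true) (hG : GoodV O)
    (w v : List (Bool × ℕ)) (hw : ∀ y ∈ w, y.2 + 1 < m) (hv : ∀ y ∈ v, y.2 + 1 < m)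
    (hp : permL w = 1)
    (hpos : ∀ a b : Fin m, a ≠ b → 0 ≤ crossN m w a b)
    (hne : ∃ a b : Fin m, a ≠ b ∧ crossN m w a b ≠ 0) (F : ℤ[T;T⁻¹]) (hF : ev1 F = 1) :
    {n : ℤ | ff O (powL w n ++ v) = F}.encard ≤ 2 := by
  have hp' := prm_one_of_permL hw hp
  by_contra hcon
  push Not at hcon
  have hcon' : 3 ≤ {n : ℤ | ff O (powL w n ++ v) = F}.encard := by
    have := Order.add_one_le_of_lt hcon
    norm_num at this
    exact this
  obtain ⟨t, ht, ht3⟩ := Set.exists_subset_encard_eq hcon'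
  obtain ⟨x, y, z, hxy, hxz, hyz, rfl⟩ := Set.encard_eq_three.1 ht3
  have hx : ff O (powL w x ++ v) = F := ht (by simp)
  have hy : ff O (powL w y ++ v) = F := ht (by simp)
  have hz : ff O (powL w z ++ v) = F := ht (by simp)
  -- the value of the closure of `v`
  have hv1 : ev1 (ff O v) = 1 := by
    have h1 := hG.value (powL w x ++ v) (by
      intro y hy
      rcases List.mem_append.1 hy with h | h
      · exact powL_lt hw x y h
      · exact hv y h)
    have h2 := hG.value v hv
    have h3 : prm m (powL w x) = 1 := prm_one_of_permL (powL_lt hw x) (permL_powL hp x)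
    rw [prm_append, h3, mul_one, ← h2, hx, hF] at h1
    linarith
  have hk := kap_neg hm O hO hG w v hw hv hp' hv1 hpos hne
  have key : ∀ a b c : ℤ, a < b → b < c → ff O (powL w a ++ v) = F → ff O (powL w b ++ v) = F →
      ff O (powL w c ++ v) = F → False := by
    intro a b c hab hbc ha hb hc'
    refine three_points ev1 (T 1 - 1) r_ne (kap O v w) hk.ne (fun n => ff O (powL w n ++ v))
      (fun n => second_diff hm O hO w v hw hp hv n) a (b - a).toNat (c - a).toNat (by omega)
      (by omega) ?_ ?_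
    · have : a + ((b - a).toNat : ℤ) = b := by omega
      simp only [this, ha, hb]
    · have : a + ((c - a).toNat : ℤ) = c := by omega
      simp only [this, ha, hc']
  rcases lt_or_gt_of_ne hxy with h1 | h1 <;> rcases lt_or_gt_of_ne hxz with h2 | h2 <;>
    rcases lt_or_gt_of_ne hyz with h3 | h3
  · exact key x y z h1 h3 hx hy hz
  · exact key x z y h2 h3 hx hz hy
  · omega
  · exact key z x y h2 h1 hz hx hy
  · exact key y x z h1 h2 hy hx hz
  · omega
  · exact key y z x h3 h2 hy hz hx
  · exact key z y x h3 h1 hz hy hx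

end Pool.Agent.H970.TF
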