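import Pool.Agent.H970_TF.Vas

/-!
# Invariants of order two detect knottedness in families of powers of positive braids

Diagrams (starting library `Pool.Agent.H891R2.Jones.Diagram`): `Diagram P` (oriented link diagrams with
marked points `P`, planar or not), `Diagram.IsClosed` (the pieces of the diagram fit together to closed
oriented curves), `Outer m` (the part of an oriented diagram outside a box through which `m` strands run;
`O.up j`: the `j`-th strand is directed upwards), `Outer.close` (the box is filled with vertical strands).

Braid words (starting library `Pool.Agent.W639.RB.Defs`, `Pool.Agent.Y463.SK.Defs`):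
`Letter m = Bool × Fin (m - 1)` (the letters `σ_i^{±1}`), `dia O w` (the diagram with the braid word `w` in
the box of `O`), `powW w n` (the word `w^n`, `n ∈ ℤ`), `IsPure` (the permutation is trivial).

Vassiliev invariants (starting library `Pool.Agent.H832R3.VJ.Defs`): `Dia` (an oriented diagram with the
finite set of its marked points), `Separated d X Y` (some integer valued Vassiliev invariant of oriented
links of order at most `d` has different values on `X` and `Y`), `unknot`.

New definition (`Pool.Agent.H970_TF.Defs`): `cross w a b`, the sum of the exponents of the letters of `w` in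
which the strands of `w` starting at the places `a` and `b` cross; for a pure braid it is twice the linking
number of the two strands.

Proof (`Pool.Agent.H970_TF`).  The moments of order `0` and `2` at `A = 1` of the normalised bracket
`f(A)` are Vassiliev invariants of order `0` and `2` (starting library).  For a pure braid `w` the second
differences of `n ↦ f(w^n v)` are `(A - 1)² P_n` with `P_n(1) = κ` independent of `n`, so the moments of
order `2` have the constant second difference `2 κ`; if the closures are knots and the linking numbers are
as below, then `κ < 0`, as a sum over the pairs of crossings of `w`.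
-/

set_option autoImplicit false

namespace Pool.Agent.H970.TF.OrderTwoTwists

open LaurentPolynomial Pool.Agent.H891R2.Jones Pool.Agent.W639.RB Pool.Agent.Y463.SK
  Pool.Agent.H970.TF Pool.Agent.H832R3.VJ

/-- Let `O` be the outside of a box in a closed oriented link diagram, the `m` strands in the box being
parallel (all of them directed upwards).  Let `w` be a braid word on `m` strands and `r ≥ 1` such that
`w^r` is a pure braid, every two strands of `w^r` having a linking number `≥ 0` and at least one of these
numbers being different from `0` (for example a pure braid `w` with this property and `r = 1`, such as the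
full twist; or any nonempty word in the letters `σ_i` and the order `r` of its permutation).  Let `v` be any
braid word.  For `n ∈ ℤ` let `D(n)` be the closed oriented diagram obtained by putting the braid `w^n v` into
the box.  Then all but at most `2 r` of the diagrams `D(n)`, `n ∈ ℤ`, are separated from the unknot by
Vassiliev invariants of order at most `2`. -/
theorem result (m : ℕ) (O : Outer m) (hO : ∀ j, O.up j = true) (hc : O.close.IsClosed)
    (w v : List (Letter m)) (r : ℕ) (hr : 0 < r) (hw : IsPure (powW w r))
    (h0 : ∀ a b : Fin m, a ≠ b → 0 ≤ Pool.Agent.H970.TF.cross (powW w r) a b)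
    (h1 : ∃ a b : Fin m, a ≠ b ∧ Pool.Agent.H970.TF.cross (powW w r) a b ≠ 0) :
    (∀ n : ℤ, (dia O (powW w n ++ v)).IsClosed) ∧
    {n : ℤ | ¬ Separated 2 ⟨_, inferInstance, dia O (powW w n ++ v)⟩ unknot}.encard ≤ 2 * r := by
  have hm : 0 < m := h1.choose.pos
  have hpos : ∀ a b : Fin m, a ≠ b → 0 ≤ crossN m (powL (toN w) r) a b := by
    intro a b hab
    rw [← toN_pow, crossN_eq]
    exact h0 a b hab
  have hne : ∃ a b : Fin m, a ≠ b ∧ crossN m (powL (toN w) r) a b ≠ 0 := by
    obtain ⟨a, b, hab, h⟩ := h1
    refine ⟨a, b, hab, ?_⟩
    rw [← toN_pow, crossN_eq]
    exact h
  have hp : permL (powL (toN w) r) = 1 := by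
    rw [← toN_pow]
    exact permL_of_pure hw
  refine ⟨fun n => draw_closed _ O (toN_lt _) hO hc, ?_⟩
  refine le_trans (Set.encard_le_encard ?_) (at_most_general_moment hm O hO
    (good_closed hm O hO hc) (toN w) (toN v) (toN_lt w) (toN_lt v) r hr hp hpos hne 0)
  intro n hn
  rw [Set.mem_ofPred_eq] at hn ⊢
  have e0 := moment_eq_of_not_separated (j := 0) (by norm_num) hn
  have e2 := moment_eq_of_not_separated (j := 2) le_rfl hn
  rw [fPoly_unknot, Pool.Agent.H953R3.Q2.m_one] at e0 e2
  simp only [dia_fPoly, toN_append, toN_pow] at e0 e2
  exact ⟨by simpa using e0, by simpa using e2⟩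

end Pool.Agent.H970.TF.OrderTwoTwists
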