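import Pool.Agent.H970_TF.Final
import Pool.Agent.H832R3.VJ.Fin

/-!
# Families of powers and Vassiliev invariants of order two
-/

set_option autoImplicit false

namespace Pool.Agent.H970.TF

open Finset LaurentPolynomial Pool.Agent.H891R2.Jones Pool.Agent.W639.RB Pool.Agent.Y463.SK
open Pool.Agent.H832R3.VJ
open Pool.Agent.H832R3.VJ.V7 (moment_term moment_C_mul)
open Pool.Agent.H953R3.Q2 (m_sum m_one T_mul0 T_mul1 mul0 mul1 mul2 m0_T m_zero)

variable {m : ℕ}

theorem r_moments : moment 0 (T 1 - 1 : ℤ[T;T⁻¹]) = 0 ∧ moment 1 (T 1 - 1 : ℤ[T;T⁻¹]) = 1 := by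
  have g1 : (T 1 : ℤ[T;T⁻¹]) = C 1 * T 1 := by rw [map_one, one_mul]
  constructor
  · rw [moment_sub, g1, moment_term, m_one]; norm_num
  · rw [moment_sub, g1, moment_term, m_one]; norm_num

theorem moment_two_rr (P : ℤ[T;T⁻¹]) :
    moment 2 ((T 1 - 1) * (T 1 - 1) * P) = 2 * ev1 P := by
  obtain ⟨h0, h1⟩ := r_moments
  rw [mul2, mul2, mul1, mul0, h0, h1, ev1_moment]
  ring

/-- the second moments form a sequence with constant second difference -/
theorem second_diff_moment (hm : 0 < m) (O : Outer m) (hO : ∀ j, O.up j = true)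
    (w v : List (Bool × ℕ)) (hw : ∀ y ∈ w, y.2 + 1 < m) (hv : ∀ y ∈ v, y.2 + 1 < m)
    (hp : permL w = 1) (n : ℤ) :
    moment 2 (ff O (powL w (n+2) ++ v)) - 2 * moment 2 (ff O (powL w (n+1) ++ v)) +
      moment 2 (ff O (powL w n ++ v)) = 2 * kap O v w := by
  obtain ⟨P, hP, hP'⟩ := second_diff hm O hO w v hw hp hv n
  have h := congrArg (moment 2) hP
  rw [moment_two_rr, hP', moment_add, moment_sub] at h
  have h2 : (2 : ℤ[T;T⁻¹]) = C 2 := by simp
  rw [h2, moment_C_mul] at h
  exact h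

/-- **At most two**, order two. -/
theorem at_most_two_moment (hm : 0 < m) (O : Outer m) (hO : ∀ j, O.up j = true) (hG : GoodV O)
    (w v : List (Bool × ℕ)) (hw : ∀ y ∈ w, y.2 + 1 < m) (hv : ∀ y ∈ v, y.2 + 1 < m)
    (hp : permL w = 1)
    (hpos : ∀ a b : Fin m, a ≠ b → 0 ≤ crossN m w a b)
    (hne : ∃ a b : Fin m, a ≠ b ∧ crossN m w a b ≠ 0) (F : ℤ) :
    {n : ℤ | moment 0 (ff O (powL w n ++ v)) = 1 ∧
      moment 2 (ff O (powL w n ++ v)) = F}.encard ≤ 2 := by
  have hp' := prm_one_of_permL hw hp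
  by_contra hcon
  push Not at hcon
  have hcon' : 3 ≤ {n : ℤ | moment 0 (ff O (powL w n ++ v)) = 1 ∧
      moment 2 (ff O (powL w n ++ v)) = F}.encard := by
    have := Order.add_one_le_of_lt hcon
    norm_num at this
    exact this
  obtain ⟨t, ht, ht3⟩ := Set.exists_subset_encard_eq hcon'
  obtain ⟨x, y, z, hxy, hxz, hyz, rfl⟩ := Set.encard_eq_three.1 ht3
  have hx : _ ∧ moment 2 (ff O (powL w x ++ v)) = F := ht (by simp)
  have hy : _ ∧ moment 2 (ff O (powL w y ++ v)) = F := ht (by simp)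
  have hz : _ ∧ moment 2 (ff O (powL w z ++ v)) = F := ht (by simp)
  -- the value of the closure of `v`
  have hv1 : ev1 (ff O v) = 1 := by
    have h1 := hG.value (powL w x ++ v) (by
      intro y hy
      rcases List.mem_append.1 hy with h | h
      · exact powL_lt hw x y h
      · exact hv y h)
    have h2 := hG.value v hv
    have h3 : prm m (powL w x) = 1 := prm_one_of_permL (powL_lt hw x) (permL_powL hp x)
    rw [prm_append, h3, mul_one, ← h2, ev1_moment (ff O (powL w x ++ v)), hx.1] at h1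
    linarith
  have hk := kap_neg hm O hO hG w v hw hv hp' hv1 hpos hne
  have key : ∀ a b c : ℤ, a < b → b < c → moment 2 (ff O (powL w a ++ v)) = F →
      moment 2 (ff O (powL w b ++ v)) = F → moment 2 (ff O (powL w c ++ v)) = F → False := by
    intro a b c hab hbc ha hb hc'
    refine three_points (RingHom.id ℤ) 1 one_ne_zero (2 * kap O v w)
      (mul_ne_zero two_ne_zero hk.ne) (fun n => moment 2 (ff O (powL w n ++ v)))
      (fun n => ⟨2 * kap O v w, ?_, rfl⟩) a (b - a).toNat (c - a).toNat (by omega)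
      (by omega) ?_ ?_
    · rw [second_diff_moment hm O hO w v hw hv hp n]
      ring
    · have : a + ((b - a).toNat : ℤ) = b := by omega
      simp only [this, ha, hb]
    · have : a + ((c - a).toNat : ℤ) = c := by omega
      simp only [this, ha, hc']
  rcases lt_or_gt_of_ne hxy with h1 | h1 <;> rcases lt_or_gt_of_ne hxz with h2 | h2 <;>
    rcases lt_or_gt_of_ne hyz with h3 | h3
  · exact key x y z h1 h3 hx.2 hy.2 hz.2
  · exact key x z y h2 h3 hx.2 hz.2 hy.2
  · omega
  · exact key z x y h2 h1 hz.2 hx.2 hy.2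
  · exact key y x z h1 h2 hy.2 hx.2 hz.2
  · omega
  · exact key y z x h3 h2 hy.2 hz.2 hx.2
  · exact key z y x h3 h1 hz.2 hy.2 hx.2

/-- residue classes -/
theorem residues (hm : 0 < m) (O : Outer m) (w v : List (Bool × ℕ))
    (hw : ∀ y ∈ w, y.2 + 1 < m) (hv : ∀ y ∈ v, y.2 + 1 < m) (r : ℕ) (hr : 0 < r)
    (Q : ℤ[T;T⁻¹] → Prop)
    (h2 : ∀ v' : List (Bool × ℕ), (∀ y ∈ v', y.2 + 1 < m) →
      {n : ℤ | Q (ff O (powL (powL w r) n ++ v'))}.encard ≤ 2) :
    {n : ℤ | Q (ff O (powL w n ++ v))}.encard ≤ 2 * r := by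
  have hr2 : (2 * (r : ℕ∞)) = ((2 * r : ℕ) : ℕ∞) := by push_cast; rfl
  rw [hr2]
  apply encard_le_of_finset
  intro Z hZ
  have hwr := powL_lt hw r
  have hr' : (r : ℤ) ≠ 0 := by omega
  have hmaps : ∀ z ∈ Z, z % (r : ℤ) ∈ (range r).image (fun s : ℕ => (s : ℤ)) := by
    intro z _
    have h1 := Int.emod_nonneg z hr'
    have h2 := Int.emod_lt_of_pos z (by omega : (0 : ℤ) < r)
    rw [Finset.mem_image]
    exact ⟨(z % (r : ℤ)).toNat, by rw [Finset.mem_range]; omega, by omega⟩
  rw [Finset.card_eq_sum_card_fiberwise hmaps]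
  have hcard : ((range r).image (fun s : ℕ => (s : ℤ))).card = r := by
    rw [Finset.card_image_of_injective _ Nat.cast_injective, Finset.card_range]
  have hfib : ∀ s ∈ (range r).image (fun s : ℕ => (s : ℤ)),
      (Z.filter (fun z => z % (r : ℤ) = s)).card ≤ 2 := by
    intro s _
    have hsv : ∀ x ∈ powL w s ++ v, x.2 + 1 < m := by
      intro x hx
      rcases List.mem_append.1 hx with h | h
      · exact powL_lt hw s x h
      · exact hv x h
    have h1 : ∀ q : ℤ, ff O (powL w (r * q + s) ++ v) = ff O (powL (powL w r) q ++ (powL w s ++ v)) := by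
      intro q
      apply ff_congr hm O
      · intro x hx
        rcases List.mem_append.1 hx with h | h
        · exact powL_lt hw _ x h
        · exact hv x h
      · intro x hx
        rcases List.mem_append.1 hx with h | h
        · exact powL_lt hwr _ x h
        · exact hsv x h
      · rw [← List.append_assoc]
        exact Eqv.append (powL_mul hw r s q) (Eqv.refl v)
    have h2 := h2 (powL w s ++ v) hsv
    have h3 : (Z.filter (fun z => z % (r : ℤ) = s)).card =
        ((Z.filter (fun z => z % (r : ℤ) = s)).image (fun z => z / (r : ℤ))).card := by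
      rw [Finset.card_image_of_injOn]
      intro x hx y hy hxy
      simp only [Finset.coe_filter, Set.mem_ofPred_eq] at hx hy
      simp only at hxy
      have e1 := Int.emod_add_mul_ediv x r
      have e2 := Int.emod_add_mul_ediv y r
      rw [← e1, ← e2, hx.2, hy.2, hxy]
    rw [h3]
    have h4 : (((Z.filter (fun z => z % (r : ℤ) = s)).image (fun z => z / (r : ℤ)) : Finset ℤ) : Set ℤ) ⊆
        {n : ℤ | Q (ff O (powL (powL w r) n ++ (powL w s ++ v)))} := by
      intro q hq
      rw [Finset.mem_coe, Finset.mem_image] at hq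
      obtain ⟨z, hz, rfl⟩ := hq
      rw [Finset.mem_filter] at hz
      simp only [Set.mem_ofPred_eq]
      rw [← h1]
      have e1 := Int.emod_add_mul_ediv z r
      have e2 : (r : ℤ) * (z / r) + s = z := by rw [← hz.2]; linarith
      rw [e2]
      exact hZ z hz.1
    have h5 := (Set.encard_le_encard h4).trans h2
    rw [Set.encard_coe_eq_coe_finsetCard] at h5
    exact_mod_cast h5
  calc _ ≤ ∑ s ∈ (range r).image (fun s : ℕ => (s : ℤ)), 2 := Finset.sum_le_sum hfib
    _ = 2 * r := by rw [Finset.sum_const, hcard, smul_eq_mul, mul_comm]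

/-- the general version, order two -/
theorem at_most_general_moment (hm : 0 < m) (O : Outer m) (hO : ∀ j, O.up j = true)
    (hG : GoodV O)
    (w v : List (Bool × ℕ)) (hw : ∀ y ∈ w, y.2 + 1 < m) (hv : ∀ y ∈ v, y.2 + 1 < m)
    (r : ℕ) (hr : 0 < r) (hp : permL (powL w r) = 1)
    (hpos : ∀ a b : Fin m, a ≠ b → 0 ≤ crossN m (powL w r) a b)
    (hne : ∃ a b : Fin m, a ≠ b ∧ crossN m (powL w r) a b ≠ 0) (F : ℤ) :
    {n : ℤ | moment 0 (ff O (powL w n ++ v)) = 1 ∧
      moment 2 (ff O (powL w n ++ v)) = F}.encard ≤ 2 * r :=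
  residues hm O w v hw hv r hr (fun p => moment 0 p = 1 ∧ moment 2 p = F)
    (fun v' hv' => at_most_two_moment hm O hO hG (powL w r) v' (powL_lt hw r) hv' hp hpos hne F)

/-- moments and separation -/
theorem moment_eq_of_not_separated {d j : ℕ} (hj : j ≤ d) {X Y : Dia} (h : ¬ Separated d X Y) :
    moment j X.D.fPoly = moment j Y.D.fPoly := by
  by_contra hne
  exact h ⟨j, hj, fun X => moment j X.D.fPoly, isVassiliev_moment j, hne⟩

end Pool.Agent.H970.TF
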